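import Mathlib

set_option autoImplicit false

/-!
# Infinite sequences all of whose small integral combinations avoid a sparse set

Greedy choice: if `Bad` has at most `C Y ^ e` elements up to `Y` and `B` has at least `c N ^ β` elements up to `N`,
`β > e`, there is a sequence `a n ∈ B`, `a n ≤ K ^ (n + 1)`, such that no nonzero combination of the `a n` with integral
coefficients of absolute value at most `H` has its absolute value in `Bad`.
-/

namespace Pool.Agent.U331.FS

open Finset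

/-- the values of the combinations of `f 0, …, f (n - 1)` -/
noncomputable def vals (H : ℕ) (f : ℕ → ℕ) : ℕ → Finset ℤ
  | 0 => {0}
  | n + 1 => Finset.image₂ (fun s w => s + w * (f n : ℤ)) (vals H f n) (Icc (-(H : ℤ)) H)

lemma card_vals (H : ℕ) (f : ℕ → ℕ) (n : ℕ) : (vals H f n).card ≤ (2 * H + 1) ^ n := by
  induction n with
  | zero => simp [vals]
  | succ n ih =>
    rw [vals, pow_succ]
    refine (card_image₂_le _ _ _).trans (Nat.mul_le_mul ih (le_of_eq ?_))
    rw [Int.card_Icc]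
    omega

lemma mem_vals (H : ℕ) (f : ℕ → ℕ) (u : ℕ → ℤ) (n : ℕ) (hu : ∀ i < n, |u i| ≤ H) :
    ∑ i ∈ range n, u i * (f i : ℤ) ∈ vals H f n := by
  induction n with
  | zero => simp [vals]
  | succ n ih =>
    rw [sum_range_succ, vals]
    refine mem_image₂_of_mem (ih fun i hi => hu i (by omega)) ?_
    rw [mem_Icc]
    exact abs_le.1 (hu n (by omega))

lemma abs_vals (H M : ℕ) (f : ℕ → ℕ) (n : ℕ) (hf : ∀ i < n, f i ≤ M) : ∀ s ∈ vals H f n, |s| ≤ n * H * M := by
  induction n with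
  | zero =>
    intro s hs
    rw [vals, mem_singleton] at hs
    simp [hs]
  | succ n ih =>
    intro s hs
    rw [vals, mem_image₂] at hs
    obtain ⟨t, ht, w, hw, rfl⟩ := hs
    have h1 := ih (fun i hi => hf i (by omega)) t ht
    rw [mem_Icc] at hw
    have h2 : |w| ≤ H := abs_le.2 hw
    have h3 : |w * (f n : ℤ)| ≤ H * M := by
      rw [abs_mul, Nat.abs_cast]
      have : (f n : ℤ) ≤ M := by exact_mod_cast hf n (by omega)
      exact mul_le_mul h2 this (Nat.cast_nonneg _) (Nat.cast_nonneg _)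
    refine (abs_add_le _ _).trans ?_
    push_cast
    nlinarith

lemma vals_congr (H : ℕ) (f g : ℕ → ℕ) (n : ℕ) (h : ∀ i < n, f i = g i) : vals H f n = vals H g n := by
  induction n with
  | zero => rfl
  | succ n ih =>
    rw [vals, vals, ih (fun i hi => h i (by omega)), h n (by omega)]

open Classical in
/-- the number of the elements up to `Y` -/
noncomputable def cnt (Bad : Set ℕ) (Y : ℕ) : ℕ := ((range (Y + 1)).filter (fun m => m ∈ Bad)).card

open Classical in
lemma card_line (Bad : Set ℕ) (Y M : ℕ) (s w : ℤ) (hw : w ≠ 0) (h : ∀ x : ℕ, x ≤ M → |s + w * x| ≤ Y) :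
    ((range (M + 1)).filter (fun x : ℕ => (s + w * x).natAbs ∈ Bad)).card ≤ 2 * cnt Bad Y := by
  have h1 : ((range (M + 1)).filter (fun x : ℕ => (s + w * x).natAbs ∈ Bad)).card ≤
      ((((range (Y + 1)).filter (fun m => m ∈ Bad)).image (fun m : ℕ => (m : ℤ))) ∪
        (((range (Y + 1)).filter (fun m => m ∈ Bad)).image (fun m : ℕ => -(m : ℤ)))).card := by
    apply card_le_card_of_injOn (fun x : ℕ => s + w * x)
    · intro x hx
      rw [mem_coe, mem_filter, mem_range] at hx
      obtain ⟨hx1, hx2⟩ := hx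
      have h2 := h x (by omega)
      have h3 : (s + w * (x : ℤ)).natAbs ∈ (range (Y + 1)).filter (fun m => m ∈ Bad) := by
        rw [mem_filter, mem_range]
        refine ⟨?_, hx2⟩
        have : ((s + w * (x : ℤ)).natAbs : ℤ) ≤ Y := by rw [Int.natCast_natAbs]; exact h2
        omega
      rw [mem_coe, mem_union, mem_image, mem_image]
      rcases Int.natAbs_eq (s + w * (x : ℤ)) with h4 | h4
      · left
        exact ⟨_, h3, h4.symm⟩
      · right
        exact ⟨_, h3, h4.symm⟩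
    · intro x _ y _ hxy
      have h2 : w * ((x : ℤ) - y) = 0 := by
        have : s + w * (x : ℤ) = s + w * (y : ℤ) := hxy
        linarith
      rcases mul_eq_zero.1 h2 with h3 | h3
      · exact absurd h3 hw
      · have : (x : ℤ) = y := by linarith
        exact_mod_cast this
  refine h1.trans ((card_union_le _ _).trans ?_)
  have h5 := card_image_le (s := (range (Y + 1)).filter (fun m => m ∈ Bad)) (f := fun m : ℕ => (m : ℤ))
  have h6 := card_image_le (s := (range (Y + 1)).filter (fun m => m ∈ Bad)) (f := fun m : ℕ => -(m : ℤ))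
  unfold cnt
  omega

open Classical in
/-- one step -/
lemma step (Bad : Set ℕ) (H M n : ℕ) (f : ℕ → ℕ) (hf : ∀ i < n, f i ≤ M) (B : Set ℕ)
    (hB : (2 * H + 1) ^ (n + 1) * (2 * cnt Bad ((n + 1) * H * M)) < {b : ℕ | b ∈ B ∧ b ≤ M}.ncard) :
    ∃ x : ℕ, x ∈ B ∧ x ≤ M ∧ ∀ s ∈ vals H f n, ∀ w : ℤ, w ≠ 0 → |w| ≤ H → (s + w * x).natAbs ∉ Bad := by
  by_contra hcon
  push Not at hcon
  have hfin : {b : ℕ | b ∈ B ∧ b ≤ M}.Finite := (Set.finite_Iic M).subset fun b hb => hb.2
  set E : Finset ℕ := ((vals H f n) ×ˢ ((Icc (-(H : ℤ)) H).filter (fun w => w ≠ 0))).biUnion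
    (fun z => (range (M + 1)).filter (fun x : ℕ => (z.1 + z.2 * x).natAbs ∈ Bad)) with hE
  have hsub : {b : ℕ | b ∈ B ∧ b ≤ M} ⊆ (E : Set ℕ) := by
    rintro x ⟨hx1, hx2⟩
    obtain ⟨s, hs, w, hw0, hwH, hbad⟩ := hcon x hx1 hx2
    rw [hE, mem_coe, mem_biUnion]
    refine ⟨(s, w), ?_, ?_⟩
    · rw [mem_product, mem_filter, mem_Icc]
      exact ⟨hs, abs_le.1 hwH, hw0⟩
    · rw [mem_filter, mem_range]
      exact ⟨by omega, hbad⟩
  have h1 : {b : ℕ | b ∈ B ∧ b ≤ M}.ncard ≤ E.card := by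
    rw [← Set.ncard_coe_finset]
    exact Set.ncard_le_ncard hsub (finite_toSet _)
  have h2 : E.card ≤ (2 * H + 1) ^ (n + 1) * (2 * cnt Bad ((n + 1) * H * M)) := by
    refine card_biUnion_le.trans ?_
    refine (sum_le_card_nsmul _ _ (2 * cnt Bad ((n + 1) * H * M)) ?_).trans ?_
    · rintro ⟨s, w⟩ hz
      rw [mem_product, mem_filter, mem_Icc] at hz
      obtain ⟨hz1, hz2, hz3⟩ := hz
      refine card_line Bad _ M s w hz3 (fun x hx => ?_)
      have h3 := abs_vals H M f n hf s hz1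
      have h4 : |w| ≤ (H : ℤ) := abs_le.2 hz2
      have h5 : |w * (x : ℤ)| ≤ H * M := by
        rw [abs_mul, Nat.abs_cast]
        have : (x : ℤ) ≤ M := by exact_mod_cast hx
        exact mul_le_mul h4 this (Nat.cast_nonneg _) (Nat.cast_nonneg _)
      refine (abs_add_le _ _).trans ?_
      push_cast
      nlinarith
    · rw [smul_eq_mul, card_product, pow_succ]
      apply Nat.mul_le_mul_right
      refine Nat.mul_le_mul (card_vals H f n) ((card_filter_le _ _).trans (le_of_eq ?_))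
      rw [Int.card_Icc]
      omega
  omega

/-- the sequence -/
theorem sequence (Bad : Set ℕ) (H K : ℕ) (B : Set ℕ)
    (hB : ∀ n : ℕ, (2 * H + 1) ^ (n + 1) * (2 * cnt Bad ((n + 1) * H * K ^ (n + 1))) <
      {b : ℕ | b ∈ B ∧ b ≤ K ^ (n + 1)}.ncard) (hK : 1 ≤ K) :
    ∃ a : ℕ → ℕ, (∀ n, a n ∈ B) ∧ (∀ n, a n ≤ K ^ (n + 1)) ∧
      ∀ u : ℕ →₀ ℤ, u ≠ 0 → (∀ i, |u i| ≤ H) → (∑ i ∈ u.support, u i * (a i : ℤ)).natAbs ∉ Bad := by
  classical
  -- the property of the partial sequences
  set Q : ℕ → (ℕ → ℕ) → Prop := fun n f => (∀ i < n, f i ∈ B ∧ f i ≤ K ^ (i + 1)) ∧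
    ∀ u : ℕ → ℤ, (∀ i < n, |u i| ≤ H) → (∃ i < n, u i ≠ 0) →
      (∑ i ∈ range n, u i * (f i : ℤ)).natAbs ∉ Bad with hQ
  have hstep : ∀ (n : ℕ) (f : ℕ → ℕ), Q n f → ∃ x : ℕ, Q (n + 1) (Function.update f n x) := by
    intro n f hf
    obtain ⟨x, hx1, hx2, hx3⟩ := step Bad H (K ^ (n + 1)) n f (fun i hi =>
      (hf.1 i hi).2.trans (Nat.pow_le_pow_right hK (by omega))) B (hB n)
    refine ⟨x, ?_, ?_⟩
    · intro i hi
      rcases Nat.lt_succ_iff_lt_or_eq.1 hi with h | h
      · rw [Function.update_of_ne (by omega)]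
        exact hf.1 i h
      · subst h
        rw [Function.update_self]
        exact ⟨hx1, hx2⟩
    · intro u hu hne
      rw [sum_range_succ, Function.update_self]
      have h1 : ∑ i ∈ range n, u i * (Function.update f n x i : ℤ) = ∑ i ∈ range n, u i * (f i : ℤ) := by
        refine sum_congr rfl fun i hi => ?_
        rw [mem_range] at hi
        rw [Function.update_of_ne (by omega)]
      rw [h1]
      by_cases hun : u n = 0
      · rw [hun, zero_mul, add_zero]
        obtain ⟨i, hi, hui⟩ := hne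
        refine hf.2 u (fun i hi => hu i (by omega)) ⟨i, ?_, hui⟩
        rcases Nat.lt_succ_iff_lt_or_eq.1 hi with h | h
        · exact h
        · exact absurd (h ▸ hun) hui
      · exact hx3 _ (mem_vals H f u n fun i hi => hu i (by omega)) _ hun (hu n (by omega))
  have h0 : Q 0 (fun _ => 0) := ⟨fun i hi => absurd hi (Nat.not_lt_zero i), fun u _ hne => by
    obtain ⟨i, hi, -⟩ := hne
    exact absurd hi (Nat.not_lt_zero i)⟩
  let G : (n : ℕ) → {f : ℕ → ℕ // Q n f} := fun n => Nat.rec ⟨fun _ => 0, h0⟩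
    (fun n g => ⟨Function.update g.1 n (hstep n g.1 g.2).choose, (hstep n g.1 g.2).choose_spec⟩) n
  have hG : ∀ n, (G (n + 1)).1 = Function.update (G n).1 n (hstep n (G n).1 (G n).2).choose := fun n => rfl
  have hstab : ∀ m n, m < n → (G n).1 m = (G (m + 1)).1 m := by
    intro m n hmn
    induction n with
    | zero => omega
    | succ n ih =>
      rcases Nat.lt_succ_iff_lt_or_eq.1 hmn with h | h
      · rw [hG n, Function.update_of_ne (by omega)]
        exact ih h
      · subst h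
        rfl
  refine ⟨fun n => (G (n + 1)).1 n, fun n => ((G (n + 1)).2.1 n (by omega)).1,
    fun n => ((G (n + 1)).2.1 n (by omega)).2, ?_⟩
  intro u hu0 hu
  obtain ⟨N, hN⟩ : ∃ N : ℕ, ∀ i ∈ u.support, i < N := ⟨u.support.sup id + 1, fun i hi =>
    Nat.lt_succ_of_le (le_sup (f := id) hi)⟩
  have h1 : ∑ i ∈ u.support, u i * (((G (i + 1)).1 i : ℕ) : ℤ) = ∑ i ∈ range N, u i * (((G N).1 i : ℕ) : ℤ) := by
    rw [sum_subset (s₂ := range N) (fun i hi => mem_range.2 (hN i hi))]
    · refine sum_congr rfl fun i hi => ?_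
      rw [hstab i N (mem_range.1 hi)]
    · intro i _ hi
      rw [Finsupp.notMem_support_iff.1 hi, zero_mul]
  rw [h1]
  refine (G N).2.2 u (fun i _ => hu i) ?_
  obtain ⟨i, hi⟩ := Finsupp.ne_iff.1 hu0
  exact ⟨i, hN i (Finsupp.mem_support_iff.2 hi), hi⟩

end Pool.Agent.U331.FS
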