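import Pool.Agent.U331.FS.A
import Pool.Agent.U449.BV.A

set_option autoImplicit false

/-!
# Infinite sequences all of whose small integral combinations keep away from a sparse family
-/

namespace Pool.Agent.U331.FS

open Finset

/-- the sequence, from the bound `cnt Bad Y ≤ C Y ^ e` and `β > e` -/
theorem exists_seq {Bad : Set ℕ} {e C : ℝ} (he : 0 ≤ e) (hC : 0 ≤ C)
    (hbad : ∀ Y : ℕ, 1 ≤ Y → (cnt Bad Y : ℝ) ≤ C * (Y : ℝ) ^ e) (hH : ℕ) {β : ℝ} (hβ : e < β) {c : ℝ} (hc : 0 < c)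
    (N₀ : ℕ) : ∃ K : ℕ, ∀ B : Set ℕ,
      (∀ N : ℕ, N₀ ≤ N → c * (N : ℝ) ^ β ≤ ({b : ℕ | b ∈ B ∧ b ≤ N}.ncard : ℝ)) →
      ∃ a : ℕ → ℕ, (∀ n, a n ∈ B) ∧ (∀ n, a n ≤ K ^ (n + 1)) ∧
        ∀ u : ℕ →₀ ℤ, u ≠ 0 → (∀ i, |u i| ≤ hH) → (∑ i ∈ u.support, u i * (a i : ℤ)).natAbs ∉ Bad := by
  -- the constant
  obtain ⟨R, hR⟩ : ∃ R : ℝ, R = (2 * hH + 1) * (2 * (hH + 1)) ^ e := ⟨_, rfl⟩
  have hR1 : 1 ≤ R := by
    rw [hR]
    have h1 : (1 : ℝ) ≤ 2 * hH + 1 := by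
      have : (0 : ℝ) ≤ hH := Nat.cast_nonneg _
      linarith
    have h2 : (1 : ℝ) ≤ (2 * ((hH : ℝ) + 1)) ^ e := Real.one_le_rpow (by
      have : (0 : ℝ) ≤ hH := Nat.cast_nonneg _
      linarith) he
    nlinarith
  obtain ⟨D, hD⟩ : ∃ D : ℝ, D = (2 * C / c + 1) * R := ⟨_, rfl⟩
  have hCc : 0 ≤ 2 * C / c := by positivity
  have hD1 : 1 ≤ D := by
    rw [hD]
    nlinarith
  obtain ⟨K₁, hK₁⟩ := Filter.eventually_atTop.mp
    (((tendsto_rpow_atTop (show 0 < β - e by linarith)).comp tendsto_natCast_atTop_atTop).eventually_ge_atTop D)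
  refine ⟨max K₁ (max N₀ 1), fun B hB => ?_⟩
  set K := max K₁ (max N₀ 1) with hK
  have hK0 : 1 ≤ K := (le_max_right _ _).trans (le_max_right _ _)
  have hKN : N₀ ≤ K := (le_max_left _ _).trans (le_max_right _ _)
  have hKD : D ≤ (K : ℝ) ^ (β - e) := hK₁ K (le_max_left _ _)
  refine sequence Bad hH K B (fun n => ?_) hK0
  have hKr : (1 : ℝ) ≤ K := by exact_mod_cast hK0
  have hKr0 : (0 : ℝ) < K := by linarith
  have hKn : N₀ ≤ K ^ (n + 1) := hKN.trans (Nat.le_self_pow (by omega) K)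
  have h1 := hB (K ^ (n + 1)) hKn
  -- bound on the bad set
  have h2 : (cnt Bad ((n + 1) * hH * K ^ (n + 1)) : ℝ) ≤ C * (((n + 1) * (hH + 1) * K ^ (n + 1) : ℕ) : ℝ) ^ e := by
    have hmono : cnt Bad ((n + 1) * hH * K ^ (n + 1)) ≤ cnt Bad ((n + 1) * (hH + 1) * K ^ (n + 1)) := by
      classical
      unfold cnt
      apply card_le_card
      apply filter_subset_filter
      apply range_mono
      have : (n + 1) * hH * K ^ (n + 1) ≤ (n + 1) * (hH + 1) * K ^ (n + 1) :=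
        Nat.mul_le_mul_right _ (Nat.mul_le_mul_left _ (by omega))
      show (n + 1) * hH * K ^ (n + 1) + 1 ≤ (n + 1) * (hH + 1) * K ^ (n + 1) + 1
      omega
    refine le_trans (Nat.cast_le.2 hmono) (hbad _ ?_)
    exact Nat.one_le_iff_ne_zero.2 (Nat.mul_ne_zero (Nat.mul_ne_zero (by omega) (by omega)) (pow_pos (by omega) _).ne')
  have h3 : (((n + 1) * (hH + 1) * K ^ (n + 1) : ℕ) : ℝ) ^ e ≤
      ((2 * ((hH : ℝ) + 1)) ^ e) ^ (n + 1) * ((K : ℝ) ^ e) ^ (n + 1) := by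
    have e1 : (((n + 1) * (hH + 1) * K ^ (n + 1) : ℕ) : ℝ) ≤ (2 * ((hH : ℝ) + 1)) ^ (n + 1) * (K : ℝ) ^ (n + 1) := by
      have g1 : ((n + 1 : ℕ) : ℝ) ≤ 2 ^ (n + 1) := by exact_mod_cast (Nat.lt_two_pow_self).le
      have g2 : ((hH : ℝ) + 1) ≤ ((hH : ℝ) + 1) ^ (n + 1) := le_self_pow₀ (by
        have : (0 : ℝ) ≤ hH := Nat.cast_nonneg _
        linarith) (by omega)
      push_cast at g1 ⊢
      rw [mul_pow]
      gcongr
    have g0 : (0 : ℝ) ≤ 2 * ((hH : ℝ) + 1) := by positivity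
    calc (((n + 1) * (hH + 1) * K ^ (n + 1) : ℕ) : ℝ) ^ e
        ≤ ((2 * ((hH : ℝ) + 1)) ^ (n + 1) * (K : ℝ) ^ (n + 1)) ^ e :=
          Real.rpow_le_rpow (Nat.cast_nonneg _) e1 he
      _ = _ := by
          rw [Real.mul_rpow (by positivity) (by positivity), ← Real.rpow_natCast (2 * ((hH : ℝ) + 1)) (n + 1),
            ← Real.rpow_natCast (K : ℝ) (n + 1), ← Real.rpow_mul g0, ← Real.rpow_mul hKr0.le,
            ← Real.rpow_natCast ((2 * ((hH : ℝ) + 1)) ^ e) (n + 1), ← Real.rpow_natCast ((K : ℝ) ^ e) (n + 1),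
            ← Real.rpow_mul g0, ← Real.rpow_mul hKr0.le, mul_comm e]
  have h4 : ((K ^ (n + 1) : ℕ) : ℝ) ^ β = ((K : ℝ) ^ (β - e)) ^ (n + 1) * ((K : ℝ) ^ e) ^ (n + 1) := by
    rw [← mul_pow, ← Real.rpow_add hKr0, sub_add_cancel]
    push_cast
    rw [← Real.rpow_natCast (K : ℝ) (n + 1), ← Real.rpow_natCast ((K : ℝ) ^ β) (n + 1), ← Real.rpow_mul hKr0.le,
      ← Real.rpow_mul hKr0.le, mul_comm β]
  have h5 : (((2 * hH + 1) ^ (n + 1) * (2 * cnt Bad ((n + 1) * hH * K ^ (n + 1))) : ℕ) : ℝ) <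
      c * ((K ^ (n + 1) : ℕ) : ℝ) ^ β := by
    have g1 : (((2 * hH + 1) ^ (n + 1) * (2 * cnt Bad ((n + 1) * hH * K ^ (n + 1))) : ℕ) : ℝ) ≤
        2 * C * (R ^ (n + 1) * ((K : ℝ) ^ e) ^ (n + 1)) := by
      push_cast
      have := h2.trans (mul_le_mul_of_nonneg_left h3 hC)
      calc (2 * (hH : ℝ) + 1) ^ (n + 1) * (2 * (cnt Bad ((n + 1) * hH * K ^ (n + 1)) : ℝ))
          ≤ (2 * (hH : ℝ) + 1) ^ (n + 1) * (2 * (C * (((2 * ((hH : ℝ) + 1)) ^ e) ^ (n + 1) * ((K : ℝ) ^ e) ^ (n + 1)))) := by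
            gcongr
        _ = _ := by rw [hR, mul_pow]; ring
    refine lt_of_le_of_lt g1 ?_
    rw [h4]
    have g2 : (0 : ℝ) < ((K : ℝ) ^ e) ^ (n + 1) := by positivity
    have g3 : 2 * C * R ^ (n + 1) < c * ((K : ℝ) ^ (β - e)) ^ (n + 1) := by
      have g4 : D ^ (n + 1) ≤ ((K : ℝ) ^ (β - e)) ^ (n + 1) := pow_le_pow_left₀ (by linarith) hKD _
      have g5 : (2 * C / c + 1) ≤ (2 * C / c + 1) ^ (n + 1) := le_self_pow₀ (by linarith) (by omega)
      have g6 : (0 : ℝ) < R ^ (n + 1) := by positivity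
      have g7 : c * ((2 * C / c + 1) * R ^ (n + 1)) ≤ c * ((K : ℝ) ^ (β - e)) ^ (n + 1) := by
        refine mul_le_mul_of_nonneg_left (le_trans ?_ g4) hc.le
        rw [hD, mul_pow]
        exact mul_le_mul_of_nonneg_right g5 g6.le
      refine lt_of_lt_of_le ?_ g7
      have g8 : c * ((2 * C / c + 1) * R ^ (n + 1)) = 2 * C * R ^ (n + 1) + c * R ^ (n + 1) := by
        field_simp
      rw [g8]
      have : 0 < c * R ^ (n + 1) := by positivity
      linarith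
    calc 2 * C * (R ^ (n + 1) * ((K : ℝ) ^ e) ^ (n + 1)) = (2 * C * R ^ (n + 1)) * ((K : ℝ) ^ e) ^ (n + 1) := by ring
      _ < (c * ((K : ℝ) ^ (β - e)) ^ (n + 1)) * ((K : ℝ) ^ e) ^ (n + 1) := mul_lt_mul_of_pos_right g3 g2
      _ = _ := by ring
  have h6 := h5.trans_le h1
  exact_mod_cast h6

/-- **Infinite sequences without exceptions.** `AllSums e κ P` is the following statement. Let `β > e`, `c > 0`, `H` and `N₀`
be given. There is `K` such that EVERY set `B` of natural numbers which has at least `c N ^ β` elements up to `N` for all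
`N ≥ N₀` contains the terms of a sequence `a 0, a 1, …` with `a n ≤ K ^ (n + 1)` such that for ALL nonzero finitely supported
integral vectors `u` with entries of absolute value at most `H` the number `v = |∑ i, u i * a i|` is not zero and has the
property `P (v ^ κ) v` (where `v ^ κ` is the length of the window). -/
def AllSums (e κ : ℝ) (P : ℝ → ℝ → Prop) : Prop :=
  ∀ β : ℝ, e < β → ∀ c : ℝ, 0 < c → ∀ H N₀ : ℕ, ∃ K : ℕ, ∀ B : Set ℕ,
    (∀ N : ℕ, N₀ ≤ N → c * (N : ℝ) ^ β ≤ ({b : ℕ | b ∈ B ∧ b ≤ N}.ncard : ℝ)) →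
    ∃ a : ℕ → ℕ, (∀ n, a n ∈ B) ∧ (∀ n, a n ≤ K ^ (n + 1)) ∧
      ∀ u : ℕ →₀ ℤ, u ≠ 0 → (∀ i, |u i| ≤ H) →
        (∑ i ∈ u.support, u i * (a i : ℤ)) ≠ 0 ∧
        P ((((∑ i ∈ u.support, u i * (a i : ℤ)).natAbs : ℕ) : ℝ) ^ κ)
          (((∑ i ∈ u.support, u i * (a i : ℤ)).natAbs : ℕ) : ℝ)

theorem AllSums.mono {e κ : ℝ} {P P' : ℝ → ℝ → Prop} (h : AllSums e κ P) (hP : ∀ W x, 0 ≤ W → P W x → P' W x) :
    AllSums e κ P' := by
  intro β hβ c hc H N₀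
  obtain ⟨K, hK⟩ := h β hβ c hc H N₀
  refine ⟨K, fun B hB => ?_⟩
  obtain ⟨a, h1, h2, h3⟩ := hK B hB
  exact ⟨a, h1, h2, fun u hu0 hu => ⟨(h3 u hu0 hu).1, hP _ _ (Real.rpow_nonneg (Nat.cast_nonneg _) _) (h3 u hu0 hu).2⟩⟩

/-- admissible objects `t` of size `h t` near the combinations are good -/
theorem all_sums {T : Type*} (Adm Good : T → Prop) (h : T → ℝ) {s κ : ℝ} (hs : 0 ≤ s) (hκ : 0 ≤ κ)
    (hS : ∀ ε : ℝ, 0 < ε → ∃ C : ℝ, ∀ X : ℝ, 1 ≤ X →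
      {t | (Adm t ∧ ¬ Good t) ∧ h t ≤ X}.Finite ∧ ({t | (Adm t ∧ ¬ Good t) ∧ h t ≤ X}.ncard : ℝ) ≤ C * X ^ (s + ε)) :
    AllSums (s + κ) κ (fun W x => ∀ t, Adm t → |h t - x| ≤ W → Good t) := by
  classical
  intro β hβ c hc H N₀
  rcases le_or_gt κ 1 with hκ1 | hκ1
  swap
  · -- there is no such set `B`
    obtain ⟨N₁, hN₁⟩ := Filter.eventually_atTop.mp
      (((tendsto_rpow_atTop (show 0 < β - 1 by linarith)).comp tendsto_natCast_atTop_atTop).eventually_gt_atTop (2 / c))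
    refine ⟨0, fun B hB => ?_⟩
    exfalso
    obtain ⟨N, hN⟩ : ∃ N, N = max N₁ (max N₀ 1) := ⟨_, rfl⟩
    have h1 := hB N (by rw [hN]; exact (le_max_left _ _).trans (le_max_right _ _))
    have h2 : 2 / c < (N : ℝ) ^ (β - 1) := hN₁ N (by rw [hN]; exact le_max_left _ _)
    have hN1 : 1 ≤ N := by rw [hN]; exact (le_max_right _ _).trans (le_max_right _ _)
    have hNr : (1 : ℝ) ≤ N := by exact_mod_cast hN1
    have h3 : ({b : ℕ | b ∈ B ∧ b ≤ N}.ncard : ℝ) ≤ N + 1 := by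
      have : {b : ℕ | b ∈ B ∧ b ≤ N}.ncard ≤ (range (N + 1)).card := by
        rw [← Set.ncard_coe_finset]
        refine Set.ncard_le_ncard ?_ (finite_toSet _)
        intro b hb
        rw [mem_coe, mem_range]
        have := hb.2
        omega
      rw [card_range] at this
      exact_mod_cast this
    have h4 : (N : ℝ) ^ β = (N : ℝ) ^ (β - 1) * N := by
      rw [← Real.rpow_add_one (by linarith), sub_add_cancel]
    have h5 : c * (N : ℝ) ^ β > 2 * N := by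
      rw [h4]
      have : c * (2 / c) = 2 := by field_simp
      have h6 : c * (2 / c) < c * (N : ℝ) ^ (β - 1) := mul_lt_mul_of_pos_left h2 hc
      nlinarith
    linarith
  obtain ⟨ε, hε⟩ : ∃ ε, ε = (β - s - κ) / 2 := ⟨_, rfl⟩
  have hε0 : 0 < ε := by rw [hε]; linarith
  obtain ⟨C, hC⟩ := hS ε hε0
  set Bad : Set ℕ := {m | m = 0 ∨ ∃ t, (Adm t ∧ ¬ Good t) ∧ |h t - (m : ℝ)| ≤ (m : ℝ) ^ κ} with hBad
  have hcount : ∀ Y : ℕ, 1 ≤ Y → (cnt Bad Y : ℝ) ≤ (3 * |C| * 2 ^ (s + ε) + 1) * (Y : ℝ) ^ (s + ε + κ) := by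
    intro Y hY
    have hY1 : (1 : ℝ) ≤ Y := by exact_mod_cast hY
    have hY0 : (0 : ℝ) < Y := by linarith
    obtain ⟨hfin, hn⟩ := hC (2 * Y) (by linarith)
    have hYκ1 : (1 : ℝ) ≤ (Y : ℝ) ^ κ := Real.one_le_rpow hY1 hκ
    have hYκ : (Y : ℝ) ^ κ ≤ Y := by
      calc (Y : ℝ) ^ κ ≤ (Y : ℝ) ^ (1 : ℝ) := Real.rpow_le_rpow_of_exponent_le hY1 hκ1
        _ = Y := Real.rpow_one _
    -- the elements of `Bad` other than `0` are near the sizes of the bad objects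
    have hsub : (range (Y + 1)).filter (fun m => m ∈ Bad) ⊆
        {0} ∪ hfin.toFinset.biUnion (fun t => (range (Y + 1)).filter (fun m : ℕ => |h t - (m : ℝ)| ≤ (Y : ℝ) ^ κ)) := by
      intro m hm
      rw [mem_filter, mem_range] at hm
      rw [mem_union, mem_singleton, mem_biUnion]
      rcases hm.2 with h0 | ⟨t, ht, htm⟩
      · exact Or.inl h0
      · right
        have hmY : (m : ℝ) ≤ Y := by
          have : m ≤ Y := by omega
          exact_mod_cast this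
        have h1 : |h t - (m : ℝ)| ≤ (Y : ℝ) ^ κ := htm.trans (Real.rpow_le_rpow (Nat.cast_nonneg _) hmY hκ)
        refine ⟨t, ?_, ?_⟩
        · rw [Set.Finite.mem_toFinset]
          refine ⟨ht, ?_⟩
          have := (abs_le.1 h1).2
          linarith
        · rw [mem_filter, mem_range]
          exact ⟨hm.1, h1⟩
    have hwin : ∀ t ∈ hfin.toFinset, (((range (Y + 1)).filter (fun m : ℕ => |h t - (m : ℝ)| ≤ (Y : ℝ) ^ κ)).card : ℝ) ≤
        3 * (Y : ℝ) ^ κ := by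
      intro t _
      have h1 : ((range (Y + 1)).filter (fun m : ℕ => |h t - (m : ℝ)| ≤ (Y : ℝ) ^ κ)).card ≤
          (((range (Y + 1)).image (fun m : ℕ => (m : ℤ))).filter fun m : ℤ => |(m : ℝ) - h t| ≤ (Y : ℝ) ^ κ).card := by
        apply card_le_card_of_injOn (fun m : ℕ => (m : ℤ))
        · intro m hm
          rw [mem_coe, mem_filter] at hm
          rw [mem_coe, mem_filter, mem_image]
          refine ⟨⟨m, hm.1, rfl⟩, ?_⟩
          rw [abs_sub_comm]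
          exact_mod_cast hm.2
        · intro x _ y _ hxy
          exact Nat.cast_injective (R := ℤ) hxy
      have h2 := Pool.Agent.U449.BV.card_int_near ((range (Y + 1)).image (fun m : ℕ => (m : ℤ))) (h t) ((Y : ℝ) ^ κ)
        (by positivity)
      have h3 : (((range (Y + 1)).filter (fun m : ℕ => |h t - (m : ℝ)| ≤ (Y : ℝ) ^ κ)).card : ℝ) ≤
          2 * (Y : ℝ) ^ κ + 1 := le_trans (by exact_mod_cast h1) h2
      linarith
    have h1 : (cnt Bad Y : ℝ) ≤ 1 + hfin.toFinset.card * (3 * (Y : ℝ) ^ κ) := by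
      have e1 : cnt Bad Y ≤ 1 + ∑ t ∈ hfin.toFinset,
          ((range (Y + 1)).filter (fun m : ℕ => |h t - (m : ℝ)| ≤ (Y : ℝ) ^ κ)).card := by
        unfold cnt
        refine le_trans (card_le_card ?_) ((card_union_le _ _).trans (Nat.add_le_add (le_of_eq (card_singleton (0 : ℕ)))
          card_biUnion_le))
        intro m hm
        exact hsub (by simpa using hm)
      have e2 : ∑ t ∈ hfin.toFinset, (((range (Y + 1)).filter (fun m : ℕ => |h t - (m : ℝ)| ≤ (Y : ℝ) ^ κ)).card : ℝ) ≤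
          hfin.toFinset.card * (3 * (Y : ℝ) ^ κ) := by
        refine (sum_le_card_nsmul _ _ _ hwin).trans (le_of_eq ?_)
        rw [nsmul_eq_mul]
      calc (cnt Bad Y : ℝ) ≤ ((1 + ∑ t ∈ hfin.toFinset,
          ((range (Y + 1)).filter (fun m : ℕ => |h t - (m : ℝ)| ≤ (Y : ℝ) ^ κ)).card : ℕ) : ℝ) := by exact_mod_cast e1
        _ = 1 + ∑ t ∈ hfin.toFinset,
          (((range (Y + 1)).filter (fun m : ℕ => |h t - (m : ℝ)| ≤ (Y : ℝ) ^ κ)).card : ℝ) := by push_cast; ring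
        _ ≤ _ := by linarith
    have h2 : (hfin.toFinset.card : ℝ) ≤ |C| * 2 ^ (s + ε) * (Y : ℝ) ^ (s + ε) := by
      rw [← Set.ncard_eq_toFinset_card _ hfin]
      refine hn.trans ?_
      rw [Real.mul_rpow (by norm_num) hY0.le, ← mul_assoc]
      gcongr
      exact le_abs_self C
    have h3 : (1 : ℝ) ≤ (Y : ℝ) ^ (s + ε + κ) := Real.one_le_rpow hY1 (by linarith)
    calc (cnt Bad Y : ℝ) ≤ 1 + hfin.toFinset.card * (3 * (Y : ℝ) ^ κ) := h1
      _ ≤ (Y : ℝ) ^ (s + ε + κ) + (|C| * 2 ^ (s + ε) * (Y : ℝ) ^ (s + ε)) * (3 * (Y : ℝ) ^ κ) := by gcongr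
      _ = _ := by
        rw [Real.rpow_add hY0 (s + ε) κ]
        ring
  obtain ⟨K, hK⟩ := exists_seq (Bad := Bad) (e := s + ε + κ) (C := 3 * |C| * 2 ^ (s + ε) + 1) (by linarith) (by positivity)
    hcount H (β := β) (by rw [hε]; linarith) hc N₀
  refine ⟨K, fun B hB => ?_⟩
  obtain ⟨a, h1, h2, h3⟩ := hK B hB
  refine ⟨a, h1, h2, fun u hu0 hu => ?_⟩
  have h4 := h3 u hu0 hu
  rw [hBad, Set.mem_ofPred_eq, not_or] at h4
  refine ⟨fun h5 => h4.1 (by rw [h5]; rfl), fun t ht htm => ?_⟩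
  by_contra hg
  exact h4.2 ⟨t, ⟨ht, hg⟩, htm⟩

end Pool.Agent.U331.FS
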