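import Pool.Agent.U331.FS.B

set_option autoImplicit false

/-!
# Variants of the interface: power savings
-/

namespace Pool.Agent.U331.FS

open Finset

/-- sets of objects `t` of size `h t` -/
theorem all_sums_set {T : Type} (S : Set T) (h : T → ℝ) {s κ : ℝ} (hs : 0 ≤ s) (hκ : 0 ≤ κ)
    (hS : ∀ ε : ℝ, 0 < ε → ∃ C : ℝ, ∀ X : ℝ, 1 ≤ X →
      {t | t ∈ S ∧ h t ≤ X}.Finite ∧ ({t | t ∈ S ∧ h t ≤ X}.ncard : ℝ) ≤ C * X ^ (s + ε)) :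
    AllSums (s + κ) κ (fun W x => ∀ t, |h t - x| ≤ W → t ∉ S) := by
  refine (all_sums (fun _ : T => True) (fun t => t ∉ S) h hs hκ ?_).mono (fun W x _ h' t ht => h' t trivial ht)
  intro ε hε
  obtain ⟨C, hC⟩ := hS ε hε
  refine ⟨C, fun X hX => ?_⟩
  simpa only [true_and, not_not] using hC X hX

/-- the exponent may be increased -/
theorem AllSums.mono_exp {e e' κ : ℝ} {P : ℝ → ℝ → Prop} (h : AllSums e κ P) (he : e ≤ e') : AllSums e' κ P :=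
  fun β hβ => h β (lt_of_le_of_lt he hβ)

/-- a property of the positive integers with few exceptions -/
theorem all_sums_good {Good : ℕ → Prop} {s κ : ℝ} (hs : 0 ≤ s) (hκ : 0 ≤ κ) {K : ℝ}
    (h : ∀ X : ℕ, 1 ≤ X → ({n : ℕ | 1 ≤ n ∧ n ≤ X ∧ ¬ Good n}.ncard : ℝ) ≤ K * (X : ℝ) ^ s) :
    AllSums (s + κ) κ (fun W x => ∀ n : ℕ, 1 ≤ n → |(n : ℝ) - x| ≤ W → Good n) := by
  refine (all_sums_set {n : ℕ | 1 ≤ n ∧ ¬ Good n} (fun n => (n : ℝ)) hs hκ ?_).mono (fun W x _ h' n hn hw => ?_)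
  · intro ε hε
    refine ⟨|K|, fun X hX => ?_⟩
    have hX0 : 0 < X := by linarith
    have hX1 : 1 ≤ ⌊X⌋₊ := Nat.le_floor (by exact_mod_cast hX)
    have hsub : {t : ℕ | t ∈ {n : ℕ | 1 ≤ n ∧ ¬ Good n} ∧ (t : ℝ) ≤ X} ⊆ {n : ℕ | 1 ≤ n ∧ n ≤ ⌊X⌋₊ ∧ ¬ Good n} := by
      rintro t ⟨⟨h1, h2⟩, h3⟩
      exact ⟨h1, Nat.le_floor h3, h2⟩
    have hfin : {n : ℕ | 1 ≤ n ∧ n ≤ ⌊X⌋₊ ∧ ¬ Good n}.Finite :=
      (Set.finite_Icc 1 ⌊X⌋₊).subset fun n hn => ⟨hn.1, hn.2.1⟩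
    refine ⟨hfin.subset hsub, ?_⟩
    have h1 : ({t : ℕ | t ∈ {n : ℕ | 1 ≤ n ∧ ¬ Good n} ∧ (t : ℝ) ≤ X}.ncard : ℝ) ≤
        ({n : ℕ | 1 ≤ n ∧ n ≤ ⌊X⌋₊ ∧ ¬ Good n}.ncard : ℝ) := by
      exact_mod_cast Set.ncard_le_ncard hsub hfin
    have h2 : ((⌊X⌋₊ : ℕ) : ℝ) ^ s ≤ X ^ (s + ε) :=
      (Real.rpow_le_rpow (Nat.cast_nonneg _) (Nat.floor_le hX0.le) hs).trans
        (Real.rpow_le_rpow_of_exponent_le hX (by linarith))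
    refine h1.trans ((h ⌊X⌋₊ hX1).trans ?_)
    exact (mul_le_mul_of_nonneg_right (le_abs_self K) (by positivity)).trans
      (mul_le_mul_of_nonneg_left h2 (abs_nonneg K))
  · by_contra hc
    exact h' n hw ⟨hn, hc⟩

/-- a property of the nonzero integers with few exceptions -/
theorem all_sums_int {Good : ℤ → Prop} {s κ : ℝ} (hs : 0 ≤ s) (hκ : 0 ≤ κ)
    (h : ∀ ε : ℝ, 0 < ε → ∃ K : ℝ, ∀ X : ℕ, 1 ≤ X →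
      ({b : ℤ | b ≠ 0 ∧ |b| ≤ (X : ℤ) ∧ ¬ Good b}.ncard : ℝ) ≤ K * (X : ℝ) ^ (s + ε)) :
    AllSums (s + κ) κ (fun W x => ∀ b : ℤ, b ≠ 0 → |(|b| : ℝ) - x| ≤ W → Good b) := by
  refine (all_sums_set {b : ℤ | b ≠ 0 ∧ ¬ Good b} (fun b => (|b| : ℝ)) hs hκ ?_).mono (fun W x _ h' n hn hw => ?_)
  · intro ε hε
    obtain ⟨K, hK⟩ := h ε hε
    refine ⟨|K|, fun X hX => ?_⟩
    have hX0 : 0 < X := by linarith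
    have hX1 : 1 ≤ ⌊X⌋₊ := Nat.le_floor (by exact_mod_cast hX)
    have hsub : {t : ℤ | t ∈ {b : ℤ | b ≠ 0 ∧ ¬ Good b} ∧ (|t| : ℝ) ≤ X} ⊆
        {b : ℤ | b ≠ 0 ∧ |b| ≤ ((⌊X⌋₊ : ℕ) : ℤ) ∧ ¬ Good b} := by
      rintro t ⟨⟨h1, h2⟩, h3⟩
      refine ⟨h1, ?_, h2⟩
      have h4 : ((t.natAbs : ℕ) : ℝ) ≤ X := by
        rw [Nat.cast_natAbs, Int.cast_abs]
        exact h3
      have h5 : t.natAbs ≤ ⌊X⌋₊ := Nat.le_floor h4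
      rw [Int.abs_eq_natAbs]
      exact_mod_cast h5
    have hfin : {b : ℤ | b ≠ 0 ∧ |b| ≤ ((⌊X⌋₊ : ℕ) : ℤ) ∧ ¬ Good b}.Finite :=
      (Set.finite_Icc (-((⌊X⌋₊ : ℕ) : ℤ)) ((⌊X⌋₊ : ℕ) : ℤ)).subset fun n hn => abs_le.1 hn.2.1
    refine ⟨hfin.subset hsub, ?_⟩
    have h1 : ({t : ℤ | t ∈ {b : ℤ | b ≠ 0 ∧ ¬ Good b} ∧ (|t| : ℝ) ≤ X}.ncard : ℝ) ≤
        ({b : ℤ | b ≠ 0 ∧ |b| ≤ ((⌊X⌋₊ : ℕ) : ℤ) ∧ ¬ Good b}.ncard : ℝ) := by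
      exact_mod_cast Set.ncard_le_ncard hsub hfin
    have h2 : ((⌊X⌋₊ : ℕ) : ℝ) ^ (s + ε) ≤ X ^ (s + ε) :=
      Real.rpow_le_rpow (Nat.cast_nonneg _) (Nat.floor_le hX0.le) (by linarith)
    refine h1.trans ((hK ⌊X⌋₊ hX1).trans ?_)
    exact (mul_le_mul_of_nonneg_right (le_abs_self K) (by positivity)).trans
      (mul_le_mul_of_nonneg_left h2 (abs_nonneg K))
  · by_contra hc
    exact h' n hw ⟨hn, hc⟩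

end Pool.Agent.U331.FS
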