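import Pool.Agent.U331.FS.A

set_option autoImplicit false

/-!
# Infinite sequences all of whose small integral combinations avoid a sparse set: general growth, sets which depend on the scale
-/

namespace Pool.Agent.U331.FS

open Finset

/-- The sequence, with the bounds `M n` for its terms. The set `Bad n` has to be avoided by the combinations with largest
index `n`. -/
theorem sequenceM (Bad : ℕ → Set ℕ) (H : ℕ) (M : ℕ → ℕ) (hM : Monotone M) (B : Set ℕ)
    (hB : ∀ n : ℕ, (2 * H + 1) ^ (n + 1) * (2 * cnt (Bad n) ((n + 1) * H * M n)) <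
      {b : ℕ | b ∈ B ∧ b ≤ M n}.ncard) :
    ∃ a : ℕ → ℕ, (∀ n, a n ∈ B) ∧ (∀ n, a n ≤ M n) ∧
      ∀ u : ℕ →₀ ℤ, (∀ i, |u i| ≤ H) → ∀ n, u n ≠ 0 → (∀ i, n < i → u i = 0) →
        (∑ i ∈ u.support, u i * (a i : ℤ)).natAbs ∉ Bad n := by
  classical
  -- the property of the partial sequences
  set Q : ℕ → (ℕ → ℕ) → Prop := fun n f => (∀ i < n, f i ∈ B ∧ f i ≤ M i) ∧
    ∀ u : ℕ → ℤ, (∀ i < n, |u i| ≤ H) → ∀ j < n, u j ≠ 0 → (∀ i < n, j < i → u i = 0) →
      (∑ i ∈ range n, u i * (f i : ℤ)).natAbs ∉ Bad j with hQ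
  have hstep : ∀ (n : ℕ) (f : ℕ → ℕ), Q n f → ∃ x : ℕ, Q (n + 1) (Function.update f n x) := by
    intro n f hf
    obtain ⟨x, hx1, hx2, hx3⟩ := step (Bad n) H (M n) n f (fun i hi =>
      (hf.1 i hi).2.trans (hM (by omega))) B (hB n)
    refine ⟨x, ?_, ?_⟩
    · intro i hi
      rcases Nat.lt_succ_iff_lt_or_eq.1 hi with h | h
      · rw [Function.update_of_ne (by omega)]
        exact hf.1 i h
      · subst h
        rw [Function.update_self]
        exact ⟨hx1, hx2⟩
    · intro u hu j hj huj hmax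
      rw [sum_range_succ, Function.update_self]
      have h1 : ∑ i ∈ range n, u i * (Function.update f n x i : ℤ) = ∑ i ∈ range n, u i * (f i : ℤ) := by
        refine sum_congr rfl fun i hi => ?_
        rw [mem_range] at hi
        rw [Function.update_of_ne (by omega)]
      rw [h1]
      rcases Nat.lt_succ_iff_lt_or_eq.1 hj with h | h
      · rw [hmax n (by omega) h, zero_mul, add_zero]
        exact hf.2 u (fun i hi => hu i (by omega)) j h huj (fun i hi hji => hmax i (by omega) hji)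
      · subst h
        exact hx3 _ (mem_vals H f u j fun i hi => hu i (by omega)) _ huj (hu j (by omega))
  have h0 : Q 0 (fun _ => 0) := ⟨fun i hi => absurd hi (Nat.not_lt_zero i), fun u _ j hj =>
    absurd hj (Nat.not_lt_zero j)⟩
  let G : (n : ℕ) → {f : ℕ → ℕ // Q n f} := fun n => Nat.rec ⟨fun _ => 0, h0⟩
    (fun n g => ⟨Function.update g.1 n (hstep n g.1 g.2).choose, (hstep n g.1 g.2).choose_spec⟩) n
  have hG : ∀ n, (G (n + 1)).1 = Function.update (G n).1 n (hstep n (G n).1 (G n).2).choose := fun n => rfl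
  have hstab : ∀ m n, m < n → (G n).1 m = (G (m + 1)).1 m := by
    intro m n hmn
    induction n with
    | zero => omega
    | succ n ih =>
      rcases Nat.lt_succ_iff_lt_or_eq.1 hmn with h | h
      · rw [hG n, Function.update_of_ne (by omega)]
        exact ih h
      · subst h
        rfl
  refine ⟨fun n => (G (n + 1)).1 n, fun n => ((G (n + 1)).2.1 n (by omega)).1,
    fun n => ((G (n + 1)).2.1 n (by omega)).2, ?_⟩
  intro u hu n hn hmax
  have hN : ∀ i ∈ u.support, i < n + 1 := by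
    intro i hi
    by_contra hcon
    exact Finsupp.mem_support_iff.1 hi (hmax i (by omega))
  have h1 : ∑ i ∈ u.support, u i * (((G (i + 1)).1 i : ℕ) : ℤ) =
      ∑ i ∈ range (n + 1), u i * (((G (n + 1)).1 i : ℕ) : ℤ) := by
    rw [sum_subset (s₂ := range (n + 1)) (fun i hi => mem_range.2 (hN i hi))]
    · refine sum_congr rfl fun i hi => ?_
      rw [hstab i (n + 1) (mem_range.1 hi)]
    · intro i _ hi
      rw [Finsupp.notMem_support_iff.1 hi, zero_mul]
  rw [h1]
  exact (G (n + 1)).2.2 u (fun i _ => hu i) n (by omega) hn (fun i _ hni => hmax i hni)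

/-- a set which does not depend on the scale -/
theorem sequenceM' (Bad : Set ℕ) (H : ℕ) (M : ℕ → ℕ) (hM : Monotone M) (B : Set ℕ)
    (hB : ∀ n : ℕ, (2 * H + 1) ^ (n + 1) * (2 * cnt Bad ((n + 1) * H * M n)) <
      {b : ℕ | b ∈ B ∧ b ≤ M n}.ncard) :
    ∃ a : ℕ → ℕ, (∀ n, a n ∈ B) ∧ (∀ n, a n ≤ M n) ∧
      ∀ u : ℕ →₀ ℤ, u ≠ 0 → (∀ i, |u i| ≤ H) → (∑ i ∈ u.support, u i * (a i : ℤ)).natAbs ∉ Bad := by
  obtain ⟨a, h1, h2, h3⟩ := sequenceM (fun _ => Bad) H M hM B hB
  refine ⟨a, h1, h2, fun u hu0 hu => ?_⟩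
  have hne : u.support.Nonempty := Finsupp.support_nonempty_iff.2 hu0
  refine h3 u hu (u.support.max' hne) (Finsupp.mem_support_iff.1 (max'_mem _ hne)) (fun i hi => ?_)
  by_contra hcon
  exact absurd (le_max' _ i (Finsupp.mem_support_iff.2 hcon)) (by omega)

end Pool.Agent.U331.FS
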