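import Pool.Agent.U331.FS.D
import Pool.Agent.U449.BV.A

set_option autoImplicit false

/-!
# Infinite sequences without exceptions, for sets whose number of elements is small by powers of the logarithm
-/

namespace Pool.Agent.U331.FS

open Finset

/-- **Infinite sequences without exceptions (slowly growing exponents).** `AllSumsLog P` is the following statement. Let `l > 1`,
`b`, `c > 0`, `A`, `H` and `N₀` be given. There is `K` such that EVERY set `B` of natural numbers which has at least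
`c N / (1 + log N) ^ b` elements up to `N` for all `N ≥ N₀` contains the terms of a sequence `a 0, a 1, …` with
`a n ≤ exp (K l ^ n)` such that for ALL nonzero finitely supported integral vectors `u` with entries of absolute value at most `H` the
number `v = |∑ i, u i * a i|` is not zero and has the property `P ((1 + log v) ^ A) v` (where `(1 + log v) ^ A` is the length of the
window). -/
def AllSumsLog (P : ℝ → ℝ → Prop) : Prop :=
  ∀ l : ℝ, 1 < l → ∀ (b : ℕ) (c : ℝ), 0 < c → ∀ A H N₀ : ℕ, ∃ K : ℝ, ∀ B : Set ℕ,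
    (∀ N : ℕ, N₀ ≤ N → c * N / (1 + Real.log N) ^ b ≤ ({x : ℕ | x ∈ B ∧ x ≤ N}.ncard : ℝ)) →
    ∃ a : ℕ → ℕ, (∀ n, a n ∈ B) ∧ (∀ n, (a n : ℝ) ≤ Real.exp (K * l ^ n)) ∧
      ∀ u : ℕ →₀ ℤ, u ≠ 0 → (∀ i, |u i| ≤ H) →
        (∑ i ∈ u.support, u i * (a i : ℤ)) ≠ 0 ∧
        P ((1 + Real.log (((∑ i ∈ u.support, u i * (a i : ℤ)).natAbs : ℕ) : ℝ)) ^ A)
          (((∑ i ∈ u.support, u i * (a i : ℤ)).natAbs : ℕ) : ℝ)

theorem AllSumsLog.mono {P P' : ℝ → ℝ → Prop} (h : AllSumsLog P) (hP : ∀ W x, 0 ≤ x → P W x → P' W x) :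
    AllSumsLog P' := by
  intro l hl b c hc A H N₀
  obtain ⟨K, hK⟩ := h l hl b c hc A H N₀
  refine ⟨K, fun B hB => ?_⟩
  obtain ⟨a, h1, h2, h3⟩ := hK B hB
  exact ⟨a, h1, h2, fun u hu0 hu => ⟨(h3 u hu0 hu).1, hP _ _ (Nat.cast_nonneg _) (h3 u hu0 hu).2⟩⟩

lemma cnt_mono (Bad : Set ℕ) {Y Y' : ℕ} (h : Y ≤ Y') : cnt Bad Y ≤ cnt Bad Y' := by
  classical
  unfold cnt
  apply card_le_card
  apply filter_subset_filter
  apply range_mono
  show Y + 1 ≤ Y' + 1
  omega

lemma log_pow_le {Y : ℝ} (hY : 1 ≤ Y) (A : ℕ) : (1 + Real.log Y) ^ A ≤ ((A : ℝ) + 1) ^ (A + 1) * Real.exp 1 * Y := by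
  have h0 : 0 ≤ Real.log Y := Real.log_nonneg hY
  have h1 : (1 + Real.log Y) ^ A ≤ (1 + Real.log Y) ^ (A + 1) := pow_le_pow_right₀ (by linarith) (by omega)
  refine h1.trans ?_
  have hA : (0 : ℝ) < (A : ℝ) + 1 := by positivity
  have h2 : (1 + Real.log Y) / (A + 1) ≤ Real.exp ((1 + Real.log Y) / (A + 1)) := by
    have := Real.add_one_le_exp ((1 + Real.log Y) / ((A : ℝ) + 1))
    linarith
  have h3 : 1 + Real.log Y ≤ (A + 1) * Real.exp ((1 + Real.log Y) / (A + 1)) := by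
    rw [div_le_iff₀ hA] at h2
    linarith
  calc (1 + Real.log Y) ^ (A + 1) ≤ ((A + 1) * Real.exp ((1 + Real.log Y) / (A + 1))) ^ (A + 1) :=
        pow_le_pow_left₀ (by linarith) h3 _
    _ = _ := by
      rw [mul_pow, ← Real.exp_nat_mul, mul_assoc]
      congr 1
      have : ((A + 1 : ℕ) : ℝ) * ((1 + Real.log Y) / (A + 1)) = 1 + Real.log Y := by
        push_cast
        field_simp
      rw [this, Real.exp_add, Real.exp_log (by linarith)]

/-- objects `t ∈ S` of size `h t` do not occur near the combinations -/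
theorem all_sums_log {T : Type*} (S : Set T) (h : T → ℝ)
    (hS : ∀ U : ℕ, ∃ C : ℝ, ∀ X : ℝ, 1 ≤ X →
      {t | t ∈ S ∧ h t ≤ X}.Finite ∧ ({t | t ∈ S ∧ h t ≤ X}.ncard : ℝ) ≤ C * X / (1 + Real.log X) ^ U) :
    AllSumsLog (fun W x => ∀ t, |h t - x| ≤ W → t ∉ S) := by
  classical
  intro l hl b c hc A H N₀
  obtain ⟨p, hp⟩ : ∃ p : ℕ, (2 * (2 * (H : ℝ) + 1)) < l ^ p := pow_unbounded_of_one_lt _ hl
  have hp0 : p ≠ 0 := by
    rintro rfl
    have : (0 : ℝ) ≤ H := Nat.cast_nonneg _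
    rw [pow_zero] at hp
    linarith
  obtain ⟨C, hC⟩ := hS (A + (b + p))
  set Bad : Set ℕ := {m | m = 0 ∨ ∃ t, t ∈ S ∧ |h t - (m : ℝ)| ≤ (1 + Real.log m) ^ A} with hBad
  obtain ⟨D, hD⟩ : ∃ D : ℝ, D = 1 + ((A : ℝ) + 1) ^ (A + 1) * Real.exp 1 := ⟨_, rfl⟩
  have hD1 : 1 ≤ D := by
    rw [hD]
    have : 0 ≤ ((A : ℝ) + 1) ^ (A + 1) * Real.exp 1 := by positivity
    linarith
  obtain ⟨C₂, hC₂⟩ : ∃ C₂ : ℝ, C₂ = 3 * (|C| * D) + (((b + p : ℕ) : ℝ) + 1) ^ (b + p + 1) * Real.exp 1 := ⟨_, rfl⟩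
  have hC₂0 : 0 ≤ C₂ := by rw [hC₂]; positivity
  have hcount : ∀ Y : ℕ, 1 ≤ Y → (cnt Bad Y : ℝ) ≤ C₂ * Y / (1 + Real.log Y) ^ (b + p) := by
    intro Y hY
    have hY1 : (1 : ℝ) ≤ Y := by exact_mod_cast hY
    have hY0 : (0 : ℝ) < Y := by linarith
    have hL : 0 ≤ Real.log Y := Real.log_nonneg hY1
    have hL0 : 0 < 1 + Real.log Y := by linarith
    have hLA : (1 : ℝ) ≤ (1 + Real.log Y) ^ A := one_le_pow₀ (by linarith)
    have hLU : (0 : ℝ) < (1 + Real.log Y) ^ (b + p) := by positivity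
    obtain ⟨hfin, hn⟩ := hC (D * Y) (by nlinarith)
    have hDY : Real.log Y ≤ Real.log (D * Y) := Real.log_le_log hY0 (by nlinarith)
    -- the elements of `Bad` other than `0` are near the sizes of the bad objects
    have hsub : (range (Y + 1)).filter (fun m => m ∈ Bad) ⊆
        {0} ∪ hfin.toFinset.biUnion (fun t => (range (Y + 1)).filter (fun m : ℕ => |h t - (m : ℝ)| ≤ (1 + Real.log Y) ^ A)) := by
      intro m hm
      rw [mem_filter, mem_range] at hm
      rw [mem_union, mem_singleton, mem_biUnion]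
      rcases Nat.eq_zero_or_pos m with h00 | hmpos
      · exact Or.inl h00
      rcases hm.2 with h0 | ⟨t, ht, htm⟩
      · exact Or.inl h0
      · right
        have hmY : (m : ℝ) ≤ Y := by
          have : m ≤ Y := by omega
          exact_mod_cast this
        have hm1 : (1 : ℝ) ≤ m := by exact_mod_cast hmpos
        have h1 : |h t - (m : ℝ)| ≤ (1 + Real.log Y) ^ A := by
          refine htm.trans (pow_le_pow_left₀ ?_ ?_ A)
          · have := Real.log_nonneg hm1
            linarith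
          · have := Real.log_le_log (by linarith) hmY
            linarith
        refine ⟨t, ?_, ?_⟩
        · rw [Set.Finite.mem_toFinset]
          refine ⟨ht, ?_⟩
          have h2 := (abs_le.1 h1).2
          have h3 := log_pow_le hY1 A
          have h4 : D * (Y : ℝ) = Y + ((A : ℝ) + 1) ^ (A + 1) * Real.exp 1 * Y := by rw [hD]; ring
          rw [h4]
          linarith
        · rw [mem_filter, mem_range]
          exact ⟨hm.1, h1⟩
    have hwin : ∀ t ∈ hfin.toFinset, (((range (Y + 1)).filter (fun m : ℕ => |h t - (m : ℝ)| ≤ (1 + Real.log Y) ^ A)).card : ℝ) ≤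
        3 * (1 + Real.log Y) ^ A := by
      intro t _
      have h1 : ((range (Y + 1)).filter (fun m : ℕ => |h t - (m : ℝ)| ≤ (1 + Real.log Y) ^ A)).card ≤
          (((range (Y + 1)).image (fun m : ℕ => (m : ℤ))).filter fun m : ℤ => |(m : ℝ) - h t| ≤ (1 + Real.log Y) ^ A).card := by
        apply card_le_card_of_injOn (fun m : ℕ => (m : ℤ))
        · intro m hm
          rw [mem_coe, mem_filter] at hm
          rw [mem_coe, mem_filter, mem_image]
          refine ⟨⟨m, hm.1, rfl⟩, ?_⟩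
          rw [abs_sub_comm]
          exact_mod_cast hm.2
        · intro x _ y _ hxy
          exact Nat.cast_injective (R := ℤ) hxy
      have h2 := Pool.Agent.U449.BV.card_int_near ((range (Y + 1)).image (fun m : ℕ => (m : ℤ))) (h t)
        ((1 + Real.log Y) ^ A) (by positivity)
      have h3 : (((range (Y + 1)).filter (fun m : ℕ => |h t - (m : ℝ)| ≤ (1 + Real.log Y) ^ A)).card : ℝ) ≤
          2 * (1 + Real.log Y) ^ A + 1 := le_trans (by exact_mod_cast h1) h2
      linarith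
    have h1 : (cnt Bad Y : ℝ) ≤ 1 + hfin.toFinset.card * (3 * (1 + Real.log Y) ^ A) := by
      have e1 : cnt Bad Y ≤ 1 + ∑ t ∈ hfin.toFinset,
          ((range (Y + 1)).filter (fun m : ℕ => |h t - (m : ℝ)| ≤ (1 + Real.log Y) ^ A)).card := by
        unfold cnt
        refine le_trans (card_le_card ?_) ((card_union_le _ _).trans (Nat.add_le_add (le_of_eq (card_singleton (0 : ℕ)))
          card_biUnion_le))
        intro m hm
        exact hsub (by simpa using hm)
      have e2 : ∑ t ∈ hfin.toFinset, (((range (Y + 1)).filter (fun m : ℕ => |h t - (m : ℝ)| ≤ (1 + Real.log Y) ^ A)).card : ℝ) ≤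
          hfin.toFinset.card * (3 * (1 + Real.log Y) ^ A) := by
        refine (sum_le_card_nsmul _ _ _ hwin).trans (le_of_eq ?_)
        rw [nsmul_eq_mul]
      calc (cnt Bad Y : ℝ) ≤ ((1 + ∑ t ∈ hfin.toFinset,
          ((range (Y + 1)).filter (fun m : ℕ => |h t - (m : ℝ)| ≤ (1 + Real.log Y) ^ A)).card : ℕ) : ℝ) := by exact_mod_cast e1
        _ = 1 + ∑ t ∈ hfin.toFinset,
          (((range (Y + 1)).filter (fun m : ℕ => |h t - (m : ℝ)| ≤ (1 + Real.log Y) ^ A)).card : ℝ) := by push_cast; ring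
        _ ≤ _ := by linarith
    have h2 : (hfin.toFinset.card : ℝ) ≤ |C| * D * Y / (1 + Real.log Y) ^ (A + (b + p)) := by
      rw [← Set.ncard_eq_toFinset_card _ hfin]
      refine hn.trans ?_
      calc C * (D * Y) / (1 + Real.log (D * Y)) ^ (A + (b + p)) ≤ |C| * (D * Y) / (1 + Real.log (D * Y)) ^ (A + (b + p)) := by
            gcongr
            · have : 0 ≤ Real.log (D * Y) := hL.trans hDY
              positivity
            · exact le_abs_self C
        _ ≤ |C| * (D * Y) / (1 + Real.log Y) ^ (A + (b + p)) := by gcongr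
        _ = _ := by ring
    have h3 : (1 : ℝ) ≤ (((b + p : ℕ) : ℝ) + 1) ^ (b + p + 1) * Real.exp 1 * Y / (1 + Real.log Y) ^ (b + p) := by
      rw [le_div_iff₀ hLU, one_mul]
      exact log_pow_le hY1 (b + p)
    calc (cnt Bad Y : ℝ) ≤ 1 + hfin.toFinset.card * (3 * (1 + Real.log Y) ^ A) := h1
      _ ≤ (((b + p : ℕ) : ℝ) + 1) ^ (b + p + 1) * Real.exp 1 * Y / (1 + Real.log Y) ^ (b + p) +
          (|C| * D * Y / (1 + Real.log Y) ^ (A + (b + p))) * (3 * (1 + Real.log Y) ^ A) := by gcongr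
      _ = _ := by
        rw [hC₂, pow_add (1 + Real.log Y) A (b + p)]
        field_simp
        ring
  -- the constant
  obtain ⟨K, hK⟩ : ∃ K : ℝ, K = 1 + N₀ + (2 * C₂ * (H + 1) * (2 * H + 1) + 1) / c := ⟨_, rfl⟩
  have hH0 : (0 : ℝ) ≤ H := Nat.cast_nonneg _
  have hK0 : 0 ≤ (2 * C₂ * (H + 1) * (2 * H + 1) + 1) / c := by positivity
  have hN0 : (0 : ℝ) ≤ N₀ := Nat.cast_nonneg _
  have hK1 : 1 ≤ K := by rw [hK]; linarith
  have hKN : (N₀ : ℝ) + 1 ≤ K := by rw [hK]; linarith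
  have hKc : 2 * C₂ * (H + 1) * (2 * H + 1) < c * K := by
    have : (2 * C₂ * (H + 1) * (2 * H + 1) + 1) / c ≤ K := by rw [hK]; linarith
    rw [div_le_iff₀ hc] at this
    linarith
  refine ⟨K, fun B hB => ?_⟩
  have hl0 : ∀ n : ℕ, (1 : ℝ) ≤ l ^ n := fun n => one_le_pow₀ hl.le
  have hz : ∀ n : ℕ, K ≤ K * l ^ n := fun n => le_mul_of_one_le_right (by linarith) (hl0 n)
  obtain ⟨a, h1, h2, h3⟩ := sequenceM' Bad H (fun n => ⌊Real.exp (K * l ^ n)⌋₊) (by
      intro m n hmn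
      apply Nat.floor_mono
      apply Real.exp_le_exp.2
      apply mul_le_mul_of_nonneg_left _ (by linarith)
      exact pow_le_pow_right₀ hl.le hmn) B (by
    intro n
    obtain ⟨M, hM⟩ : ∃ M : ℕ, M = ⌊Real.exp (K * l ^ n)⌋₊ := ⟨_, rfl⟩
    show (2 * H + 1) ^ (n + 1) * (2 * cnt Bad ((n + 1) * H * ⌊Real.exp (K * l ^ n)⌋₊)) <
      {b : ℕ | b ∈ B ∧ b ≤ ⌊Real.exp (K * l ^ n)⌋₊}.ncard
    rw [← hM]
    have hz1 : 1 ≤ K * l ^ n := hK1.trans (hz n)
    have hexp : K * l ^ n + 1 ≤ Real.exp (K * l ^ n) := Real.add_one_le_exp _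
    have hMN : N₀ ≤ M := by
      rw [hM]
      apply Nat.le_floor
      linarith [hz n]
    have hM1 : 1 ≤ M := by
      rw [hM]
      apply Nat.le_floor
      push_cast
      linarith
    have hMr : (1 : ℝ) ≤ M := by exact_mod_cast hM1
    have hMr0 : (0 : ℝ) < M := by linarith
    have hML : K * l ^ n ≤ 1 + Real.log M := by
      have e1 : Real.exp (K * l ^ n) < M + 1 := by
        rw [hM]
        exact Nat.lt_floor_add_one _
      have e2 : Real.exp (K * l ^ n - 1) ≤ M := by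
        have e3 : Real.exp (K * l ^ n) = Real.exp (K * l ^ n - 1) * Real.exp 1 := by
          rw [← Real.exp_add]
          congr 1
          ring
        have e4 : (2 : ℝ) ≤ Real.exp 1 := by
          have := Real.add_one_le_exp (1 : ℝ)
          linarith
        have e5 : 1 ≤ Real.exp (K * l ^ n - 1) := Real.one_le_exp (by linarith)
        nlinarith
      have e3 := Real.log_le_log (Real.exp_pos _) e2
      rw [Real.log_exp] at e3
      linarith
    have hL0 : 0 < 1 + Real.log M := by linarith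
    -- the number of the bad elements
    have g1 : (cnt Bad ((n + 1) * H * M) : ℝ) ≤ C₂ * ((n + 1) * (H + 1) * M) / (1 + Real.log M) ^ (b + p) := by
      have hmono : cnt Bad ((n + 1) * H * M) ≤ cnt Bad ((n + 1) * (H + 1) * M) :=
        cnt_mono Bad (Nat.mul_le_mul_right _ (Nat.mul_le_mul_left _ (by omega)))
      have hge : M ≤ (n + 1) * (H + 1) * M := Nat.le_mul_of_pos_left _ (by positivity)
      have h4 := hcount ((n + 1) * (H + 1) * M) (hM1.trans hge)
      refine le_trans (Nat.cast_le.2 hmono) (h4.trans ?_)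
      push_cast
      have hlog : Real.log M ≤ Real.log (((n : ℝ) + 1) * (H + 1) * M) := by
        apply Real.log_le_log hMr0
        exact_mod_cast hge
      gcongr
    have g2 := hB M hMN
    have g3 : (((2 * H + 1) ^ (n + 1) * (2 * cnt Bad ((n + 1) * H * M)) : ℕ) : ℝ) < c * M / (1 + Real.log M) ^ b := by
      have e1 : (((2 * H + 1) ^ (n + 1) * (2 * cnt Bad ((n + 1) * H * M)) : ℕ) : ℝ) ≤
          (2 * (H : ℝ) + 1) ^ (n + 1) * (2 * (C₂ * ((n + 1) * (H + 1) * M) / (1 + Real.log M) ^ (b + p))) := by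
        push_cast
        gcongr
      refine e1.trans_lt ?_
      have e2 : ((n : ℝ) + 1) * (2 * (H : ℝ) + 1) ^ n * K ≤ (1 + Real.log M) ^ p := by
        have f1 : ((n : ℝ) + 1) ≤ 2 ^ n := by
          have : n + 1 ≤ 2 ^ n := Nat.lt_two_pow_self
          exact_mod_cast this
        have f2 : (2 * (2 * (H : ℝ) + 1)) ^ n ≤ (l ^ p) ^ n := pow_le_pow_left₀ (by positivity) hp.le n
        have f3 : K ≤ K ^ p := le_self_pow₀ hK1 hp0
        calc ((n : ℝ) + 1) * (2 * (H : ℝ) + 1) ^ n * K ≤ 2 ^ n * (2 * (H : ℝ) + 1) ^ n * K ^ p := by gcongr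
          _ = (2 * (2 * (H : ℝ) + 1)) ^ n * K ^ p := by rw [mul_pow]
          _ ≤ (l ^ p) ^ n * K ^ p := by gcongr
          _ = (K * l ^ n) ^ p := by rw [mul_pow, ← pow_mul, ← pow_mul, mul_comm p n]; ring
          _ ≤ _ := pow_le_pow_left₀ (by linarith) hML p
      have hLb : 0 < (1 + Real.log M) ^ b := by positivity
      have hLp : 0 < (1 + Real.log M) ^ p := by positivity
      rw [lt_div_iff₀ hLb]
      have e3 : (2 * (H : ℝ) + 1) ^ (n + 1) * (2 * (C₂ * ((n + 1) * (H + 1) * M) / (1 + Real.log M) ^ (b + p))) *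
          (1 + Real.log M) ^ b = (2 * C₂ * (H + 1) * (2 * H + 1)) * (((n : ℝ) + 1) * (2 * (H : ℝ) + 1) ^ n) * M /
            (1 + Real.log M) ^ p := by
        rw [pow_succ, pow_add (1 + Real.log M) b p]
        field_simp
      rw [e3, div_lt_iff₀ hLp]
      have e4 : 0 < ((n : ℝ) + 1) * (2 * (H : ℝ) + 1) ^ n := by positivity
      calc (2 * C₂ * (H + 1) * (2 * H + 1)) * (((n : ℝ) + 1) * (2 * (H : ℝ) + 1) ^ n) * M <
            (c * K) * (((n : ℝ) + 1) * (2 * (H : ℝ) + 1) ^ n) * M := by gcongr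
        _ = c * M * (((n : ℝ) + 1) * (2 * (H : ℝ) + 1) ^ n * K) := by ring
        _ ≤ c * M * (1 + Real.log M) ^ p := by gcongr
    have g4 := g3.trans_le g2
    exact_mod_cast g4)
  refine ⟨a, h1, fun n => ?_, fun u hu0 hu => ?_⟩
  · exact le_trans (Nat.cast_le.2 (h2 n)) (Nat.floor_le (Real.exp_pos _).le)
  · have h4 := h3 u hu0 hu
    rw [hBad, Set.mem_ofPred_eq, not_or] at h4
    refine ⟨fun h5 => h4.1 (by rw [h5]; rfl), fun t htm ht => ?_⟩
    exact h4.2 ⟨t, ht, htm⟩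

end Pool.Agent.U331.FS
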