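import Pool.Agent.U331.FS.E

set_option autoImplicit false

/-!
# Variants of the interface: integers and natural numbers, powers of the logarithm
-/

namespace Pool.Agent.U331.FS

open Finset

/-- from large natural numbers to all real numbers -/
lemma log_conv (f : ℕ → ℝ) (hf : ∀ X : ℕ, f X ≤ 2 * X + 1) {U X₀ : ℕ}
    (h : ∀ X : ℕ, X₀ ≤ X → f X ≤ X / Real.log X ^ U) :
    ∃ C : ℝ, ∀ X : ℝ, 1 ≤ X → f ⌊X⌋₊ ≤ C * X / (1 + Real.log X) ^ U := by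
  obtain ⟨X₁, hX₁⟩ : ∃ X₁ : ℕ, X₁ = max X₀ 3 := ⟨_, rfl⟩
  refine ⟨max ((3 : ℝ) ^ U) ((2 * X₁ + 1) * (1 + Real.log (X₁ : ℝ)) ^ U), fun X hX => ?_⟩
  have hX0 : 0 < X := by linarith
  have hL : 0 ≤ Real.log X := Real.log_nonneg hX
  have hLU : 0 < (1 + Real.log X) ^ U := by positivity
  rcases le_or_gt X₁ ⌊X⌋₊ with h1 | h1
  · have h3 : 3 ≤ ⌊X⌋₊ := le_trans (by rw [hX₁]; exact le_max_right _ _) h1
    have h4 := h ⌊X⌋₊ (le_trans (by rw [hX₁]; exact le_max_left _ _) h1)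
    obtain ⟨m, hm⟩ : ∃ m : ℝ, m = ((⌊X⌋₊ : ℕ) : ℝ) := ⟨_, rfl⟩
    rw [← hm] at h4
    have hm3 : (3 : ℝ) ≤ m := by rw [hm]; exact_mod_cast h3
    have hmX : m ≤ X := by rw [hm]; exact Nat.floor_le hX0.le
    have hXm : X ≤ 2 * m := by
      have := Nat.lt_floor_add_one X
      rw [← hm] at this
      linarith
    have hlog : 1 ≤ Real.log m := by
      rw [Real.le_log_iff_exp_le (by linarith)]
      linarith [Real.exp_one_lt_d9]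
    have hlog2 : 1 + Real.log X ≤ 3 * Real.log m := by
      have e1 : Real.log X ≤ Real.log (2 * m) := Real.log_le_log hX0 hXm
      rw [Real.log_mul (by norm_num) (by linarith)] at e1
      have e2 : Real.log 2 ≤ 1 := by linarith [Real.log_two_lt_d9]
      linarith
    refine h4.trans ?_
    have e3 : (1 + Real.log X) ^ U ≤ 3 ^ U * Real.log m ^ U := by
      rw [← mul_pow]
      exact pow_le_pow_left₀ (by linarith) hlog2 U
    have e4 : 0 < Real.log m ^ U := by positivity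
    have e5 : (3 : ℝ) ^ U ≤ max ((3 : ℝ) ^ U) ((2 * X₁ + 1) * (1 + Real.log (X₁ : ℝ)) ^ U) := le_max_left _ _
    rw [div_le_div_iff₀ e4 hLU]
    calc m * (1 + Real.log X) ^ U ≤ X * (3 ^ U * Real.log m ^ U) := by gcongr
      _ = 3 ^ U * X * Real.log m ^ U := by ring
      _ ≤ _ := by gcongr
  · have h2 : X ≤ X₁ := by
      have e1 := Nat.lt_floor_add_one X
      have e2 : ((⌊X⌋₊ : ℕ) : ℝ) + 1 ≤ X₁ := by exact_mod_cast h1
      linarith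
    have h3 : f ⌊X⌋₊ ≤ 2 * X₁ + 1 := by
      refine (hf _).trans ?_
      have : ((⌊X⌋₊ : ℕ) : ℝ) ≤ X₁ := by exact_mod_cast h1.le
      linarith
    refine h3.trans ?_
    rw [le_div_iff₀ hLU]
    have e1 : (1 + Real.log X) ^ U ≤ (1 + Real.log (X₁ : ℝ)) ^ U := by
      apply pow_le_pow_left₀ (by linarith)
      have := Real.log_le_log hX0 h2
      linarith
    have e2 : (2 * (X₁ : ℝ) + 1) * (1 + Real.log (X₁ : ℝ)) ^ U ≤
        max ((3 : ℝ) ^ U) ((2 * X₁ + 1) * (1 + Real.log (X₁ : ℝ)) ^ U) := le_max_right _ _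
    have e3 : 0 ≤ max ((3 : ℝ) ^ U) ((2 * X₁ + 1) * (1 + Real.log (X₁ : ℝ)) ^ U) := le_trans (by positivity) (le_max_left _ _)
    calc (2 * (X₁ : ℝ) + 1) * (1 + Real.log X) ^ U ≤ (2 * (X₁ : ℝ) + 1) * (1 + Real.log (X₁ : ℝ)) ^ U := by gcongr
      _ ≤ max ((3 : ℝ) ^ U) ((2 * X₁ + 1) * (1 + Real.log (X₁ : ℝ)) ^ U) * 1 := by rw [mul_one]; exact e2
      _ ≤ _ := by gcongr

/-- a property of the integers with few exceptions -/
theorem all_sums_log_int {Good : ℤ → Prop}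
    (h : ∀ U : ℕ, ∃ X₀ : ℕ, ∀ X : ℕ, X₀ ≤ X → ({k : ℤ | |k| ≤ (X : ℤ) ∧ ¬ Good k}.ncard : ℝ) ≤ X / Real.log X ^ U) :
    AllSumsLog (fun W x => ∀ k : ℤ, |(|k| : ℝ) - x| ≤ W → Good k) := by
  refine (all_sums_log {k : ℤ | ¬ Good k} (fun k => (|k| : ℝ)) ?_).mono (fun W x _ h' k hk => ?_)
  · intro U
    obtain ⟨X₀, hX₀⟩ := h U
    have hfin : ∀ X : ℕ, {k : ℤ | |k| ≤ (X : ℤ) ∧ ¬ Good k}.Finite := fun X =>
      (Set.finite_Icc (-(X : ℤ)) X).subset fun n hn => abs_le.1 hn.1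
    obtain ⟨C, hC⟩ := log_conv (fun X => ({k : ℤ | |k| ≤ (X : ℤ) ∧ ¬ Good k}.ncard : ℝ)) (fun X => by
      have h1 : {k : ℤ | |k| ≤ (X : ℤ) ∧ ¬ Good k}.ncard ≤ (Icc (-(X : ℤ)) X).card := by
        rw [← Set.ncard_coe_finset]
        refine Set.ncard_le_ncard ?_ (finite_toSet _)
        intro k hk
        rw [coe_Icc]
        exact abs_le.1 hk.1
      rw [Int.card_Icc] at h1
      have h2 : {k : ℤ | |k| ≤ (X : ℤ) ∧ ¬ Good k}.ncard ≤ 2 * X + 1 := by omega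
      exact_mod_cast h2) hX₀
    refine ⟨C, fun X hX => ?_⟩
    have hsub : {t : ℤ | t ∈ {k : ℤ | ¬ Good k} ∧ (|t| : ℝ) ≤ X} ⊆ {k : ℤ | |k| ≤ ((⌊X⌋₊ : ℕ) : ℤ) ∧ ¬ Good k} := by
      rintro t ⟨h1, h3⟩
      refine ⟨?_, h1⟩
      have h4 : ((t.natAbs : ℕ) : ℝ) ≤ X := by
        rw [Nat.cast_natAbs, Int.cast_abs]
        exact h3
      have h5 : t.natAbs ≤ ⌊X⌋₊ := Nat.le_floor h4
      rw [Int.abs_eq_natAbs]
      exact_mod_cast h5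
    exact ⟨(hfin _).subset hsub, le_trans (Nat.cast_le.2 (Set.ncard_le_ncard hsub (hfin _))) (hC X hX)⟩
  · by_contra hc
    exact h' k hk hc

/-- a property of the positive integers with few exceptions -/
theorem all_sums_log_nat {Good : ℕ → Prop}
    (h : ∀ U : ℕ, ∃ X₀ : ℕ, ∀ X : ℕ, X₀ ≤ X →
      ({n : ℕ | 1 ≤ n ∧ n ≤ X ∧ ¬ Good n}.ncard : ℝ) ≤ X / Real.log X ^ U) :
    AllSumsLog (fun W x => ∀ n : ℕ, 1 ≤ n → |(n : ℝ) - x| ≤ W → Good n) := by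
  refine (all_sums_log {n : ℕ | 1 ≤ n ∧ ¬ Good n} (fun n => (n : ℝ)) ?_).mono (fun W x _ h' k hk1 hk => ?_)
  · intro U
    obtain ⟨X₀, hX₀⟩ := h U
    have hfin : ∀ X : ℕ, {n : ℕ | 1 ≤ n ∧ n ≤ X ∧ ¬ Good n}.Finite := fun X =>
      (Set.finite_Icc 1 X).subset fun n hn => ⟨hn.1, hn.2.1⟩
    obtain ⟨C, hC⟩ := log_conv (fun X => ({n : ℕ | 1 ≤ n ∧ n ≤ X ∧ ¬ Good n}.ncard : ℝ)) (fun X => by
      have h1 : {n : ℕ | 1 ≤ n ∧ n ≤ X ∧ ¬ Good n}.ncard ≤ (Icc 1 X).card := by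
        rw [← Set.ncard_coe_finset]
        refine Set.ncard_le_ncard ?_ (finite_toSet _)
        intro k hk
        rw [coe_Icc]
        exact ⟨hk.1, hk.2.1⟩
      rw [Nat.card_Icc] at h1
      have h2 : {n : ℕ | 1 ≤ n ∧ n ≤ X ∧ ¬ Good n}.ncard ≤ 2 * X + 1 := by omega
      exact_mod_cast h2) hX₀
    refine ⟨C, fun X hX => ?_⟩
    have hsub : {t : ℕ | t ∈ {n : ℕ | 1 ≤ n ∧ ¬ Good n} ∧ (t : ℝ) ≤ X} ⊆ {n : ℕ | 1 ≤ n ∧ n ≤ ⌊X⌋₊ ∧ ¬ Good n} := by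
      rintro t ⟨⟨h1, h2⟩, h3⟩
      exact ⟨h1, Nat.le_floor h3, h2⟩
    exact ⟨(hfin _).subset hsub, le_trans (Nat.cast_le.2 (Set.ncard_le_ncard hsub (hfin _))) (hC X hX)⟩
  · by_contra hc
    exact h' k hk ⟨hk1, hc⟩

end Pool.Agent.U331.FS
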