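import Pool.Agent.U331.FS.D
import Pool.Agent.U331.FS.E

set_option autoImplicit false

/-!
# Infinite sequences without exceptions: properties of almost all integers
-/

namespace Pool.Agent.U331.FS

open Finset

/-- **Infinite sequences without exceptions, almost all integers.** `AllSumsDens Q` is the following statement. Let `c > 0`, `H` and
`N₀` be given. There is an increasing function `M` such that EVERY set `B` of natural numbers which has at least `c N` elements up to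
`N` for all `N ≥ N₀` contains the terms of a sequence `a 0, a 1, …` with `a n ≤ M n` such that for ALL finitely supported integral
vectors `u ≠ 0` with entries of absolute value at most `H` and for the largest index `n` of a nonzero entry the number
`v = |∑ i, u i * a i|` is not zero, at most `X = (n + 1) (H + 1) M n`, and has the property `Q n X v`. -/
def AllSumsDens (Q : ℕ → ℕ → ℕ → Prop) : Prop :=
  ∀ c : ℝ, 0 < c → ∀ H N₀ : ℕ, ∃ M : ℕ → ℕ, Monotone M ∧ ∀ B : Set ℕ,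
    (∀ N : ℕ, N₀ ≤ N → c * N ≤ ({x : ℕ | x ∈ B ∧ x ≤ N}.ncard : ℝ)) →
    ∃ a : ℕ → ℕ, (∀ n, a n ∈ B) ∧ (∀ n, a n ≤ M n) ∧
      ∀ u : ℕ →₀ ℤ, (∀ i, |u i| ≤ H) → ∀ n, u n ≠ 0 → (∀ i, n < i → u i = 0) →
        (∑ i ∈ u.support, u i * (a i : ℤ)) ≠ 0 ∧
        (∑ i ∈ u.support, u i * (a i : ℤ)).natAbs ≤ (n + 1) * (H + 1) * M n ∧
        Q n ((n + 1) * (H + 1) * M n) (∑ i ∈ u.support, u i * (a i : ℤ)).natAbs

lemma cnt_le (Bad : Set ℕ) (Y : ℕ) (S : Finset ℕ) (h : ∀ m ≤ Y, m ∈ Bad → m ∈ S) : cnt Bad Y ≤ S.card := by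
  classical
  unfold cnt
  refine card_le_card fun m hm => ?_
  rw [mem_filter, mem_range] at hm
  exact h m (by omega) hm.2

/-- Fixed `c`, `H`, `N₀`: the property `Q n X` has to hold for all but a small proportion of the integers up to `X`. -/
theorem sums_dens {Q : ℕ → ℕ → ℕ → Prop} {c : ℝ} (hc : 0 < c) (H N₀ : ℕ)
    (hQ : ∀ n : ℕ, ∃ X₀ : ℕ, ∀ X : ℕ, X₀ ≤ X →
      ({m : ℕ | 1 ≤ m ∧ m ≤ X ∧ ¬ Q n X m}.ncard : ℝ) ≤
        c / (4 * (2 * (H : ℝ) + 1) ^ (n + 1) * ((n + 1) * (H + 1))) * X) :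
    ∃ M : ℕ → ℕ, Monotone M ∧ ∀ B : Set ℕ,
    (∀ N : ℕ, N₀ ≤ N → c * N ≤ ({x : ℕ | x ∈ B ∧ x ≤ N}.ncard : ℝ)) →
    ∃ a : ℕ → ℕ, (∀ n, a n ∈ B) ∧ (∀ n, a n ≤ M n) ∧
      ∀ u : ℕ →₀ ℤ, (∀ i, |u i| ≤ H) → ∀ n, u n ≠ 0 → (∀ i, n < i → u i = 0) →
        (∑ i ∈ u.support, u i * (a i : ℤ)) ≠ 0 ∧
        (∑ i ∈ u.support, u i * (a i : ℤ)).natAbs ≤ (n + 1) * (H + 1) * M n ∧
        Q n ((n + 1) * (H + 1) * M n) (∑ i ∈ u.support, u i * (a i : ℤ)).natAbs := by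
  classical
  have hH0 : (0 : ℝ) ≤ H := Nat.cast_nonneg _
  choose X₀ hX₀ using hQ
  -- the bounds: the number `1` of the zero has to be small as well
  obtain ⟨Z, hZ⟩ : ∃ Z : ℕ → ℕ, ∀ n, 8 * (2 * (H : ℝ) + 1) ^ (n + 1) / c < Z n := by
    choose Z hZ using fun n : ℕ => exists_nat_gt (8 * (2 * (H : ℝ) + 1) ^ (n + 1) / c)
    exact ⟨Z, hZ⟩
  set M : ℕ → ℕ := fun n => ∑ i ∈ range (n + 1), (X₀ i + Z i + N₀ + 1) with hM
  have hMn : ∀ n, X₀ n ≤ M n ∧ Z n ≤ M n ∧ N₀ ≤ M n ∧ 1 ≤ M n := by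
    intro n
    have h1 : X₀ n + Z n + N₀ + 1 ≤ M n :=
      single_le_sum (f := fun i => X₀ i + Z i + N₀ + 1) (fun i _ => Nat.zero_le _) (self_mem_range_succ n)
    refine ⟨?_, ?_, ?_, ?_⟩ <;> omega
  have hmono : Monotone M := by
    intro m n hmn
    exact sum_le_sum_of_subset (range_mono (by show m + 1 ≤ n + 1; omega))
  refine ⟨M, hmono, fun B hB => ?_⟩
  set Bad : ℕ → Set ℕ := fun n => {m | m = 0 ∨ ¬ Q n ((n + 1) * (H + 1) * M n) m} with hBad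
  obtain ⟨a, h1, h2, h3⟩ := sequenceM Bad H M hmono B (by
    intro n
    obtain ⟨g1, g2, g3, g4⟩ := hMn n
    have hge : M n ≤ (n + 1) * (H + 1) * M n := Nat.le_mul_of_pos_left _ (by positivity)
    have h4 := hX₀ n ((n + 1) * (H + 1) * M n) (g1.trans hge)
    have h5 : (cnt (Bad n) ((n + 1) * H * M n) : ℝ) ≤
        1 + c / (4 * (2 * (H : ℝ) + 1) ^ (n + 1) * ((n + 1) * (H + 1))) * (((n + 1) * (H + 1) * M n : ℕ) : ℝ) := by
      have h6 : cnt (Bad n) ((n + 1) * H * M n) ≤ 1 + {m : ℕ | 1 ≤ m ∧ m ≤ (n + 1) * (H + 1) * M n ∧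
          ¬ Q n ((n + 1) * (H + 1) * M n) m}.ncard := by
        have hfin : {m : ℕ | 1 ≤ m ∧ m ≤ (n + 1) * (H + 1) * M n ∧ ¬ Q n ((n + 1) * (H + 1) * M n) m}.Finite :=
          (Set.finite_Icc 1 ((n + 1) * (H + 1) * M n)).subset fun m hm => ⟨hm.1, hm.2.1⟩
        rw [Set.ncard_eq_toFinset_card _ hfin]
        refine le_trans (cnt_le _ _ ({0} ∪ hfin.toFinset) ?_)
          ((card_union_le _ _).trans (by rw [card_singleton]))
        intro m hmY hm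
        rw [mem_union, mem_singleton, Set.Finite.mem_toFinset]
        rcases Nat.eq_zero_or_pos m with h0 | h0
        · exact Or.inl h0
        · right
          refine ⟨h0, ?_, ?_⟩
          · have : (n + 1) * H * M n ≤ (n + 1) * (H + 1) * M n :=
              Nat.mul_le_mul_right _ (Nat.mul_le_mul_left _ (by omega))
            omega
          · rcases hm with h7 | h7
            · omega
            · exact h7
      calc (cnt (Bad n) ((n + 1) * H * M n) : ℝ) ≤ ((1 + {m : ℕ | 1 ≤ m ∧ m ≤ (n + 1) * (H + 1) * M n ∧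
            ¬ Q n ((n + 1) * (H + 1) * M n) m}.ncard : ℕ) : ℝ) := by exact_mod_cast h6
        _ ≤ _ := by
          rw [Nat.cast_add, Nat.cast_one]
          linarith
    have h6 := hB (M n) g3
    have hMr : (1 : ℝ) ≤ M n := by exact_mod_cast g4
    have h7 : (((2 * H + 1) ^ (n + 1) * (2 * cnt (Bad n) ((n + 1) * H * M n)) : ℕ) : ℝ) < c * M n := by
      have e1 : (((2 * H + 1) ^ (n + 1) * (2 * cnt (Bad n) ((n + 1) * H * M n)) : ℕ) : ℝ) ≤
          (2 * (H : ℝ) + 1) ^ (n + 1) * (2 * (1 + c / (4 * (2 * (H : ℝ) + 1) ^ (n + 1) * ((n + 1) * (H + 1))) *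
            (((n + 1) * (H + 1) * M n : ℕ) : ℝ))) := by
        push_cast at h5 ⊢
        gcongr
      refine e1.trans_lt ?_
      have e2 : (2 * (H : ℝ) + 1) ^ (n + 1) * (2 * (1 + c / (4 * (2 * (H : ℝ) + 1) ^ (n + 1) * ((n + 1) * (H + 1))) *
            (((n + 1) * (H + 1) * M n : ℕ) : ℝ))) = 2 * (2 * (H : ℝ) + 1) ^ (n + 1) + c * M n / 2 := by
        push_cast
        have q1 : (2 * (H : ℝ) + 1) ^ (n + 1) ≠ 0 := by positivity
        have q2 : ((n : ℝ) + 1) ≠ 0 := by positivity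
        have q3 : ((H : ℝ) + 1) ≠ 0 := by positivity
        field_simp
        ring
      rw [e2]
      have e3 : 8 * (2 * (H : ℝ) + 1) ^ (n + 1) / c < M n := (hZ n).trans_le (by exact_mod_cast g2)
      rw [div_lt_iff₀ hc] at e3
      nlinarith
    have h8 := h7.trans_le h6
    exact_mod_cast h8)
  refine ⟨a, h1, h2, fun u hu n hn hmax => ?_⟩
  have h4 := h3 u hu n hn hmax
  rw [hBad] at h4
  simp only [Set.mem_ofPred_eq, not_or, not_not] at h4
  refine ⟨fun h5 => h4.1 (by rw [h5]; rfl), ?_, h4.2⟩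
  have g1 : |∑ i ∈ u.support, u i * (a i : ℤ)| ≤ (n + 1) * H * M n := by
    have hsup : u.support ⊆ range (n + 1) := by
      intro i hi
      rw [mem_range]
      by_contra hcon
      exact Finsupp.mem_support_iff.1 hi (hmax i (by omega))
    have g2 : |∑ i ∈ u.support, u i * (a i : ℤ)| ≤ ∑ i ∈ range (n + 1), |u i * (a i : ℤ)| := by
      rw [sum_subset hsup (fun i _ hi => by rw [Finsupp.notMem_support_iff.1 hi, zero_mul])]
      exact abs_sum_le_sum_abs _ _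
    refine g2.trans ?_
    have g3 : ∀ i ∈ range (n + 1), |u i * (a i : ℤ)| ≤ (H : ℤ) * M n := by
      intro i hi
      rw [mem_range] at hi
      rw [abs_mul, Nat.abs_cast]
      have g4 : (a i : ℤ) ≤ (M n : ℤ) := by
        have g5 : a i ≤ M n := (h2 i).trans (hmono (by omega))
        exact_mod_cast g5
      exact mul_le_mul (hu i) g4 (Nat.cast_nonneg _) (Nat.cast_nonneg _)
    refine (sum_le_card_nsmul _ _ _ g3).trans (le_of_eq ?_)
    rw [card_range, nsmul_eq_mul]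
    push_cast
    ring
  have g2 : (∑ i ∈ u.support, u i * (a i : ℤ)).natAbs ≤ (n + 1) * H * M n := by
    have : (((∑ i ∈ u.support, u i * (a i : ℤ)).natAbs : ℕ) : ℤ) ≤ (((n + 1) * H * M n : ℕ) : ℤ) := by
      rw [Int.natCast_natAbs]
      push_cast
      exact g1
    exact_mod_cast this
  exact g2.trans (Nat.mul_le_mul_right _ (Nat.mul_le_mul_left _ (by omega)))

/-- Properties of almost all integers up to `X`, for every step `n`. -/
theorem all_sums_dens {Q : ℕ → ℕ → ℕ → Prop}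
    (hQ : ∀ n : ℕ, ∀ ε : ℝ, 0 < ε → ∃ X₀ : ℕ, ∀ X : ℕ, X₀ ≤ X →
      ({m : ℕ | 1 ≤ m ∧ m ≤ X ∧ ¬ Q n X m}.ncard : ℝ) ≤ ε * X) :
    AllSumsDens Q :=
  fun c hc H N₀ => sums_dens hc H N₀ fun n => hQ n _ (by positivity)

/-- from limits to bounds -/
lemma of_tendsto {f : ℕ → ℕ} (h : Filter.Tendsto (fun X : ℕ => (f X : ℝ) / X) Filter.atTop (nhds 0)) (ε : ℝ) (hε : 0 < ε) :
    ∃ X₀ : ℕ, ∀ X : ℕ, X₀ ≤ X → (f X : ℝ) ≤ ε * X := by
  obtain ⟨X₀, hX₀⟩ := Filter.eventually_atTop.mp (h.eventually (gt_mem_nhds hε))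
  refine ⟨max X₀ 1, fun X hX => ?_⟩
  have h1 := hX₀ X ((le_max_left _ _).trans hX)
  have h2 : (0 : ℝ) < X := by exact_mod_cast (le_max_right _ _).trans hX
  rw [div_lt_iff₀ h2] at h1
  exact h1.le

/-- windows of length `n`: a property of almost all positive integers -/
theorem all_sums_windows {Good : ℕ → Prop}
    (hG : ∀ ε : ℝ, 0 < ε → ∃ X₀ : ℕ, ∀ X : ℕ, X₀ ≤ X → ({m : ℕ | 1 ≤ m ∧ m ≤ X ∧ ¬ Good m}.ncard : ℝ) ≤ ε * X) :
    AllSumsDens (fun n _ v => ∀ k : ℕ, 1 ≤ k → |(k : ℤ) - v| ≤ n → Good k) := by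
  classical
  apply all_sums_dens
  intro n ε hε
  obtain ⟨X₀, hX₀⟩ := hG (ε / (2 * (2 * n + 1))) (by positivity)
  refine ⟨max X₀ (n + 1), fun X hX => ?_⟩
  have h1 := hX₀ (X + n) (((le_max_left _ _).trans hX).trans (Nat.le_add_right _ _))
  have hfin : {m : ℕ | 1 ≤ m ∧ m ≤ X + n ∧ ¬ Good m}.Finite :=
    (Set.finite_Icc 1 (X + n)).subset fun m hm => ⟨hm.1, hm.2.1⟩
  have hsub : {m : ℕ | 1 ≤ m ∧ m ≤ X ∧ ¬ ∀ k : ℕ, 1 ≤ k → |(k : ℤ) - m| ≤ n → Good k} ⊆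
      ((hfin.toFinset.biUnion fun k => Icc (k - n) (k + n) : Finset ℕ) : Set ℕ) := by
    rintro m ⟨h2, h3, h4⟩
    push Not at h4
    obtain ⟨k, hk1, hk2, hk3⟩ := h4
    rw [mem_coe, mem_biUnion]
    have h5 := abs_le.1 hk2
    refine ⟨k, ?_, ?_⟩
    · rw [Set.Finite.mem_toFinset]
      exact ⟨hk1, by omega, hk3⟩
    · rw [mem_Icc]
      omega
  have h2 : {m : ℕ | 1 ≤ m ∧ m ≤ X ∧ ¬ ∀ k : ℕ, 1 ≤ k → |(k : ℤ) - m| ≤ n → Good k}.ncard ≤
      hfin.toFinset.card * (2 * n + 1) := by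
    refine le_trans (Set.ncard_le_ncard hsub (finite_toSet _)) ?_
    rw [Set.ncard_coe_finset]
    refine card_biUnion_le_card_mul _ _ _ (fun k _ => ?_)
    rw [Nat.card_Icc]
    omega
  have h3 : (hfin.toFinset.card : ℝ) ≤ ε / (2 * (2 * n + 1)) * ((X + n : ℕ) : ℝ) := by
    rw [← Set.ncard_eq_toFinset_card _ hfin]
    exact h1
  have h4 : ((X + n : ℕ) : ℝ) ≤ 2 * X := by
    have : n + 1 ≤ X := (le_max_right _ _).trans hX
    have h5 : X + n ≤ 2 * X := by omega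
    exact_mod_cast h5
  calc ({m : ℕ | 1 ≤ m ∧ m ≤ X ∧ ¬ ∀ k : ℕ, 1 ≤ k → |(k : ℤ) - m| ≤ n → Good k}.ncard : ℝ)
      ≤ ((hfin.toFinset.card * (2 * n + 1) : ℕ) : ℝ) := by exact_mod_cast h2
    _ = hfin.toFinset.card * (2 * (n : ℝ) + 1) := by push_cast; ring
    _ ≤ (ε / (2 * (2 * n + 1)) * (2 * X)) * (2 * (n : ℝ) + 1) := by
      gcongr
      exact h3.trans (mul_le_mul_of_nonneg_left h4 (by positivity))
    _ = ε * X := by
      field_simp

end Pool.Agent.U331.FS
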