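import Pool.Agent.U331.FS.H

set_option autoImplicit false

/-!
# Sequences of properties
-/

namespace Pool.Agent.U331.FS

open Finset

/-- a sequence `G j` of properties of almost all integers: at the step `n` the first `n + 1` of them are considered, in windows of
radius `n` -/
theorem all_sums_seq_int {G : ℕ → ℤ → Prop}
    (hG : ∀ j : ℕ, ∀ ε : ℝ, 0 < ε → ∃ X₀ : ℕ, ∀ X : ℕ, X₀ ≤ X → ({k : ℤ | |k| ≤ (X : ℤ) ∧ ¬ G j k}.ncard : ℝ) ≤ ε * X) :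
    AllSumsDens (fun n _ v => ∀ j ≤ n, ∀ k : ℤ, |(|k| : ℤ) - v| ≤ n → G j k) := by
  classical
  apply all_sums_dens
  intro n ε hε
  choose Y hY using fun j : ℕ => hG j (ε / (2 * (n + 1) * (2 * n + 1))) (by positivity)
  refine ⟨(∑ j ∈ range (n + 1), Y j) + (n + 1), fun X hX => ?_⟩
  have hYX : ∀ j ≤ n, Y j ≤ X + n := by
    intro j hj
    have h1 : Y j ≤ ∑ j ∈ range (n + 1), Y j :=
      single_le_sum (f := Y) (fun i _ => Nat.zero_le _) (mem_range.2 (by omega))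
    omega
  have hfin : ∀ j : ℕ, {k : ℤ | |k| ≤ ((X + n : ℕ) : ℤ) ∧ ¬ G j k}.Finite := by
    intro j
    refine (Set.finite_Icc (-((X + n : ℕ) : ℤ)) ((X + n : ℕ) : ℤ)).subset fun k hk => ?_
    exact abs_le.1 hk.1
  have hsub : {m : ℕ | 1 ≤ m ∧ m ≤ X ∧ ¬ ∀ j ≤ n, ∀ k : ℤ, |(|k| : ℤ) - m| ≤ n → G j k} ⊆
      (((range (n + 1)).biUnion fun j => (hfin j).toFinset.biUnion fun k => Icc (k.natAbs - n) (k.natAbs + n) :
        Finset ℕ) : Set ℕ) := by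
    rintro m ⟨h2, h3, h4⟩
    push Not at h4
    obtain ⟨j, hj, k, hk2, hk3⟩ := h4
    have h5 := abs_le.1 hk2
    rw [mem_coe, mem_biUnion]
    refine ⟨j, mem_range.2 (by omega), ?_⟩
    rw [mem_biUnion]
    refine ⟨k, ?_, ?_⟩
    · rw [Set.Finite.mem_toFinset]
      refine ⟨?_, hk3⟩
      push_cast
      have : (m : ℤ) ≤ X := by exact_mod_cast h3
      linarith [h5.2]
    · rw [mem_Icc]
      rw [← Int.natCast_natAbs] at h5
      omega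
  have h2 : ({m : ℕ | 1 ≤ m ∧ m ≤ X ∧ ¬ ∀ j ≤ n, ∀ k : ℤ, |(|k| : ℤ) - m| ≤ n → G j k}.ncard : ℝ) ≤
      ∑ j ∈ range (n + 1), ((hfin j).toFinset.card : ℝ) * (2 * n + 1) := by
    have h3 : {m : ℕ | 1 ≤ m ∧ m ≤ X ∧ ¬ ∀ j ≤ n, ∀ k : ℤ, |(|k| : ℤ) - m| ≤ n → G j k}.ncard ≤
        ∑ j ∈ range (n + 1), (hfin j).toFinset.card * (2 * n + 1) := by
      refine le_trans (Set.ncard_le_ncard hsub (finite_toSet _)) ?_
      rw [Set.ncard_coe_finset]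
      refine card_biUnion_le.trans (sum_le_sum fun j _ => ?_)
      refine card_biUnion_le_card_mul _ _ _ (fun k _ => ?_)
      rw [Nat.card_Icc]
      omega
    exact_mod_cast h3
  have h4 : ((X + n : ℕ) : ℝ) ≤ 2 * X := by
    have h5 : X + n ≤ 2 * X := by omega
    exact_mod_cast h5
  have h5 : ∀ j ∈ range (n + 1), ((hfin j).toFinset.card : ℝ) * (2 * n + 1) ≤ ε * X / (n + 1) := by
    intro j hj
    rw [mem_range] at hj
    have h6 := hY j (X + n) (hYX j (by omega))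
    rw [Set.ncard_eq_toFinset_card _ (hfin j)] at h6
    calc ((hfin j).toFinset.card : ℝ) * (2 * n + 1)
        ≤ (ε / (2 * (n + 1) * (2 * n + 1)) * (2 * X)) * (2 * n + 1) := by
          gcongr
          exact h6.trans (mul_le_mul_of_nonneg_left h4 (by positivity))
      _ = ε * X / (n + 1) := by
          field_simp
  refine h2.trans ((sum_le_card_nsmul _ _ _ h5).trans (le_of_eq ?_))
  rw [card_range, nsmul_eq_mul]
  push_cast
  field_simp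

/-- the same for properties of the natural numbers -/
theorem all_sums_seq_nat {G : ℕ → ℕ → Prop}
    (hG : ∀ j : ℕ, ∀ ε : ℝ, 0 < ε → ∃ X₀ : ℕ, ∀ X : ℕ, X₀ ≤ X → ({k : ℕ | 1 ≤ k ∧ k ≤ X ∧ ¬ G j k}.ncard : ℝ) ≤ ε * X) :
    AllSumsDens (fun n _ v => ∀ j ≤ n, ∀ k : ℕ, 1 ≤ k → |(k : ℤ) - v| ≤ n → G j k) := by
  classical
  intro c hc H N₀
  obtain ⟨M, hM, h1⟩ := all_sums_seq_int (G := fun j k => 1 ≤ k → G j k.toNat) (fun j ε hε => by
    obtain ⟨X₀, hX₀⟩ := hG j ε hε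
    refine ⟨X₀, fun X hX => le_trans ?_ (hX₀ X hX)⟩
    have hfin : {k : ℕ | 1 ≤ k ∧ k ≤ X ∧ ¬ G j k}.Finite :=
      (Set.finite_Icc 1 X).subset fun k hk => ⟨hk.1, hk.2.1⟩
    have hsub : {k : ℤ | |k| ≤ (X : ℤ) ∧ ¬ (1 ≤ k → G j k.toNat)} ⊆
        (fun k : ℕ => (k : ℤ)) '' {k : ℕ | 1 ≤ k ∧ k ≤ X ∧ ¬ G j k} := by
      rintro k ⟨h2, h3⟩
      push Not at h3
      have h4 := abs_le.1 h2
      exact ⟨k.toNat, ⟨by omega, by omega, h3.2⟩, by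
        show ((k.toNat : ℕ) : ℤ) = k
        omega⟩
    exact_mod_cast (Set.ncard_le_ncard hsub (hfin.image _)).trans (Set.ncard_image_le hfin)) c hc H N₀
  refine ⟨M, hM, fun B hB => ?_⟩
  obtain ⟨a, h2, h3, h4⟩ := h1 B hB
  refine ⟨a, h2, h3, fun u hu n hn hmax => ?_⟩
  obtain ⟨h5, h6, h7⟩ := h4 u hu n hn hmax
  refine ⟨h5, h6, fun j hj k hk hkv => ?_⟩
  have h8 := h7 j hj (k : ℤ) (by
    rw [Nat.abs_cast]
    exact hkv) (by exact_mod_cast hk)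
  rwa [Int.toNat_natCast] at h8

/-- powers of logarithms -/
lemma of_log {f : ℕ → ℕ} (h : ∃ X₀ : ℕ, ∀ X : ℕ, X₀ ≤ X → (f X : ℝ) ≤ X / Real.log X) (ε : ℝ) (hε : 0 < ε) :
    ∃ X₀ : ℕ, ∀ X : ℕ, X₀ ≤ X → (f X : ℝ) ≤ ε * X := by
  obtain ⟨X₁, h1⟩ := h
  obtain ⟨X₂, h2⟩ := Filter.eventually_atTop.mp
    ((Real.tendsto_log_atTop.comp tendsto_natCast_atTop_atTop).eventually_ge_atTop (1 / ε))
  refine ⟨max X₁ X₂, fun X hX => (h1 X ((le_max_left _ _).trans hX)).trans ?_⟩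
  have h3 : 1 / ε ≤ Real.log X := h2 X ((le_max_right _ _).trans hX)
  have h4 : 0 < Real.log X := lt_of_lt_of_le (by positivity) h3
  rw [div_le_iff₀ h4]
  have h5 : 1 ≤ ε * Real.log X := by
    rw [div_le_iff₀ hε] at h3
    linarith
  nlinarith [Nat.cast_nonneg (α := ℝ) X]

end Pool.Agent.U331.FS
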