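import Pool.Agent.U331.FS.H

set_option autoImplicit false

/-!
# Windows around the integral combinations
-/

namespace Pool.Agent.U331.FS

open Finset

/-- the number of the windows of radius `n` which contain an exception -/
lemma count_windows (X n : ℕ) (P : ℕ → Prop) [DecidablePred fun k => ¬ P k] :
    {m : ℕ | 1 ≤ m ∧ m ≤ X ∧ ¬ ∀ k : ℕ, |(k : ℤ) - m| ≤ n → P k}.ncard ≤
      ((range (X + n + 1)).filter (fun k => ¬ P k)).card * (2 * n + 1) := by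
  classical
  have hsub : {m : ℕ | 1 ≤ m ∧ m ≤ X ∧ ¬ ∀ k : ℕ, |(k : ℤ) - m| ≤ n → P k} ⊆
      ((((range (X + n + 1)).filter (fun k => ¬ P k)).biUnion fun k => Icc (k - n) (k + n) : Finset ℕ) : Set ℕ) := by
    rintro m ⟨h2, h3, h4⟩
    push Not at h4
    obtain ⟨k, hk2, hk3⟩ := h4
    rw [mem_coe, mem_biUnion]
    have h5 := abs_le.1 hk2
    refine ⟨k, ?_, ?_⟩
    · rw [mem_filter, mem_range]
      exact ⟨by omega, hk3⟩
    · rw [mem_Icc]
      omega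
  refine le_trans (Set.ncard_le_ncard hsub (finite_toSet _)) ?_
  rw [Set.ncard_coe_finset]
  refine card_biUnion_le_card_mul _ _ _ (fun k _ => ?_)
  rw [Nat.card_Icc]
  omega

/-- windows of radius `n` around the combinations: a property `P n X` which holds for all but a small proportion of the integers up
to `X + n` -/
theorem sums_dens_windows {P : ℕ → ℕ → ℕ → Prop} {c : ℝ} (hc : 0 < c) (H N₀ : ℕ)
    (hP : ∀ n : ℕ, ∃ X₀ : ℕ, ∀ X : ℕ, X₀ ≤ X → ∃ S : Finset ℕ, (∀ k ≤ X + n, ¬ P n X k → k ∈ S) ∧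
      (S.card : ℝ) ≤
        c / (4 * (2 * (H : ℝ) + 1) ^ (n + 1) * ((n + 1) * (H + 1))) / (2 * (2 * n + 1)) * ((X + n : ℕ) : ℝ)) :
    ∃ M : ℕ → ℕ, Monotone M ∧ ∀ B : Set ℕ,
    (∀ N : ℕ, N₀ ≤ N → c * N ≤ ({x : ℕ | x ∈ B ∧ x ≤ N}.ncard : ℝ)) →
    ∃ a : ℕ → ℕ, (∀ n, a n ∈ B) ∧ (∀ n, a n ≤ M n) ∧
      ∀ u : ℕ →₀ ℤ, (∀ i, |u i| ≤ H) → ∀ n, u n ≠ 0 → (∀ i, n < i → u i = 0) →
        (∑ i ∈ u.support, u i * (a i : ℤ)) ≠ 0 ∧
        (∑ i ∈ u.support, u i * (a i : ℤ)).natAbs ≤ (n + 1) * (H + 1) * M n ∧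
        ∀ k : ℕ, |(k : ℤ) - (∑ i ∈ u.support, u i * (a i : ℤ)).natAbs| ≤ n → P n ((n + 1) * (H + 1) * M n) k := by
  classical
  refine sums_dens (Q := fun n X v => ∀ k : ℕ, |(k : ℤ) - v| ≤ n → P n X k) hc H N₀ (fun n => ?_)
  obtain ⟨X₀, hX₀⟩ := hP n
  refine ⟨max X₀ (n + 1), fun X hX => ?_⟩
  obtain ⟨S, hS, hS'⟩ := hX₀ X ((le_max_left _ _).trans hX)
  set ε : ℝ := c / (4 * (2 * (H : ℝ) + 1) ^ (n + 1) * ((n + 1) * (H + 1))) with hε
  have hε0 : 0 ≤ ε := by positivity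
  have h4 : ((X + n : ℕ) : ℝ) ≤ 2 * X := by
    have : n + 1 ≤ X := (le_max_right _ _).trans hX
    have h5 : X + n ≤ 2 * X := by omega
    exact_mod_cast h5
  have h2 : ((range (X + n + 1)).filter (fun k => ¬ P n X k)).card ≤ S.card := by
    refine card_le_card fun k hk => ?_
    rw [mem_filter, mem_range] at hk
    exact hS k (by omega) hk.2
  calc ({m : ℕ | 1 ≤ m ∧ m ≤ X ∧ ¬ ∀ k : ℕ, |(k : ℤ) - m| ≤ n → P n X k}.ncard : ℝ)
      ≤ ((((range (X + n + 1)).filter (fun k => ¬ P n X k)).card * (2 * n + 1) : ℕ) : ℝ) := by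
        exact_mod_cast count_windows X n (P n X)
    _ ≤ (S.card : ℝ) * (2 * (n : ℝ) + 1) := by
        push_cast
        gcongr
    _ ≤ (ε / (2 * (2 * n + 1)) * (2 * X)) * (2 * (n : ℝ) + 1) := by
        gcongr
        exact hS'.trans (mul_le_mul_of_nonneg_left h4 (by positivity))
    _ = ε * X := by
        field_simp

end Pool.Agent.U331.FS
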